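import Mathlib

set_option autoImplicit false

namespace Pool.Agent.H286Z.Roots
open Set

variable {V W : Type} [NormedAddCommGroup V] [NormedSpace ℝ V] [NormedAddCommGroup W]
  [NormedSpace ℝ W]

/-- difference quotient -/
noncomputable def D (x : ℝ) (f : ℝ → V) (y : ℝ) : V := (y - x)⁻¹ • (f y - f x)

/-- divided differences of order `N` on `S` are bounded by `B` -/
def Top : ℕ → Set ℝ → (ℝ → V) → ℝ → Prop
  | 0, S, f, B => ∀ y ∈ S, ‖f y‖ ≤ B
  | N + 1, S, f, B => ∀ x ∈ S, Top N (S \ {x}) (D x f) B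

/-- divided differences of order at most `N` on `S` are bounded by `B` -/
def Cls (N : ℕ) (S : Set ℝ) (f : ℝ → V) (B : ℝ) : Prop := ∀ k ≤ N, Top k S f B

lemma D_eq {x y : ℝ} (f : ℝ → V) (h : y ≠ x) : f y = f x + (y - x) • D x f y := by
  rw [D, smul_smul, mul_inv_cancel₀ (sub_ne_zero.2 h), one_smul]; abel

lemma Top.mono {N : ℕ} : ∀ {S S' : Set ℝ} {f : ℝ → V} {B B' : ℝ}, Top N S f B → S' ⊆ S →
    B ≤ B' → Top N S' f B' := by
  induction N with
  | zero => intro S S' f B B' h hS hB y hy; exact (h y (hS hy)).trans hB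
  | succ N ih =>
    intro S S' f B B' h hS hB x hx
    exact ih (h x (hS hx)) (diff_subset_diff_left hS) hB

lemma Top.congr {N : ℕ} : ∀ {S : Set ℝ} {f g : ℝ → V} {B : ℝ}, Top N S f B → EqOn g f S →
    Top N S g B := by
  induction N with
  | zero => intro S f g B h e y hy; rw [e hy]; exact h y hy
  | succ N ih =>
    intro S f g B h e x hx
    exact ih (h x hx) fun y hy => by simp only [D, e hx, e hy.1]

lemma Top.add {N : ℕ} : ∀ {S : Set ℝ} {f g : ℝ → V} {B B' : ℝ}, Top N S f B → Top N S g B' →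
    Top N S (fun y => f y + g y) (B + B') := by
  induction N with
  | zero => intro S f g B B' h h' y hy; exact norm_add_le_of_le (h y hy) (h' y hy)
  | succ N ih =>
    intro S f g B B' h h' x hx
    refine (ih (h x hx) (h' x hx)).congr fun y _ => ?_
    simp only [D, ← smul_add]; congr 1; abel

lemma Top.map (L : V →ₗ[ℝ] W) {K : ℝ} (hK : 0 ≤ K) (hL : ∀ v, ‖L v‖ ≤ K * ‖v‖) {N : ℕ} :
    ∀ {S : Set ℝ} {f : ℝ → V} {B : ℝ}, Top N S f B → Top N S (fun y => L (f y)) (K * B) := by
  induction N with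
  | zero => intro S f B h y hy; exact (hL _).trans (mul_le_mul_of_nonneg_left (h y hy) hK)
  | succ N ih =>
    intro S f B h x hx
    refine (ih (h x hx)).congr fun y _ => ?_
    simp only [D, map_smul, map_sub]

lemma Top.smul (c : ℝ) {N : ℕ} {S : Set ℝ} {f : ℝ → V} {B : ℝ} (h : Top N S f B) :
    Top N S (fun y => c • f y) (|c| * B) :=
  h.map (c • LinearMap.id) (abs_nonneg c) (fun v => by simp [norm_smul])

lemma top_zero_fun {N : ℕ} : ∀ {S : Set ℝ} {B : ℝ}, 0 ≤ B → Top N S (fun _ => (0 : V)) B := by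
  induction N with
  | zero => intro S B h y _; simpa using h
  | succ N ih =>
    intro S B h x _
    exact (ih h).congr fun y _ => by simp [D]

lemma Top.sub_const {N : ℕ} {S : Set ℝ} {f : ℝ → V} {B : ℝ} (h : Top (N + 1) S f B) (c : V) :
    Top (N + 1) S (fun y => f y - c) B :=
  fun x hx => (h x hx).congr fun y _ => by simp [D]

lemma Top.affine (a : ℝ) {L : ℝ} (hL : 0 < L) {N : ℕ} : ∀ {S : Set ℝ} {f : ℝ → V} {B : ℝ},
    Top N S f B → Top N {y | a + L * y ∈ S} (fun y => f (a + L * y)) (L ^ N * B) := by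
  induction N with
  | zero => intro S f B h y hy; simpa using h _ hy
  | succ N ih =>
    intro S f B h x hx
    have h1 := (ih (h _ hx)).smul L
    rw [abs_of_pos hL, ← mul_assoc, ← pow_succ'] at h1
    refine (h1.mono ?_ le_rfl).congr fun y hy => ?_
    · rintro y ⟨hy, hy'⟩
      refine ⟨hy, fun e => hy' ?_⟩
      have : L * y = L * x := by simpa using e
      exact mul_left_cancel₀ hL.ne' this
    · simp only [D, smul_smul]
      congr 1
      have : y - x ≠ 0 := sub_ne_zero.2 hy.2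
      have e : a + L * y - (a + L * x) = L * (y - x) := by ring
      rw [e]; field_simp

lemma Top.integral [CompleteSpace V] {N : ℕ} : ∀ {S : Set ℝ} {F : ℝ → ℝ → V} {B : ℝ},
    (∀ y ∈ S, IntervalIntegrable (fun s => F s y) MeasureTheory.volume 0 1) →
    (∀ s ∈ Ioc (0 : ℝ) 1, Top N S (F s) B) → Top N S (fun y => ∫ s in (0 : ℝ)..1, F s y) B := by
  induction N with
  | zero =>
    intro S F B _ h y hy
    have := intervalIntegral.norm_integral_le_of_norm_le_const (a := 0) (b := 1) (C := B)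
      (f := fun s => F s y) (fun s hs => h s (by simpa using hs) y hy)
    simpa using this
  | succ N ih =>
    intro S F B hi h x hx
    have := ih (S := S \ {x}) (F := fun s => D x (F s)) (B := B)
      (fun y hy => ((hi y hy.1).sub (hi x hx)).smul (y - x)⁻¹) (fun s hs => h s hs x hx)
    refine this.congr fun y hy => ?_
    simp only [D]
    rw [intervalIntegral.integral_smul, intervalIntegral.integral_sub (hi y hy.1) (hi x hx)]

lemma Top.of_deriv [CompleteSpace V] {N : ℕ} {f f' : ℝ → V} {B : ℝ} (hB : 0 ≤ B)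
    (hf : ∀ y, HasDerivAt f (f' y) y) (hc : Continuous f') (h : Top N univ f' B) :
    Top (N + 1) univ f B := by
  intro x _
  have := Top.integral (N := N) (S := univ \ {x}) (F := fun s y => f' (x + s * (y - x))) (B := B)
    (fun y _ => Continuous.intervalIntegrable (by fun_prop) _ _) (fun s hs => by
      have h1 := h.affine (x - s * x) hs.1
      refine (h1.mono (fun y _ => trivial) ?_).congr fun y _ => by congr 1; ring
      exact mul_le_of_le_one_left hB (pow_le_one₀ hs.1.le hs.2))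
  refine this.congr fun y hy => ?_
  have hne : y - x ≠ 0 := sub_ne_zero.2 hy.2
  have h2 : ∫ s in (0 : ℝ)..1, (y - x) • f' (x + s * (y - x)) =
      f (x + 1 * (y - x)) - f (x + 0 * (y - x)) := by
    refine intervalIntegral.integral_eq_sub_of_hasDerivAt (f := fun s => f (x + s * (y - x)))
      (fun s _ => ?_) (Continuous.intervalIntegrable (by fun_prop) _ _)
    have := (hf (x + s * (y - x))).scomp s
      (((hasDerivAt_id s).mul_const (y - x)).const_add x)
    simpa [Function.comp_def] using this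
  rw [intervalIntegral.integral_smul] at h2
  simp only [one_mul, add_sub_cancel, zero_mul, add_zero] at h2
  simp only [D]
  rw [← h2, smul_smul, inv_mul_cancel₀ hne, one_smul]

lemma top_one_of_lip {S : Set ℝ} {f : ℝ → V} {B : ℝ}
    (h : ∀ x ∈ S, ∀ y ∈ S, ‖f y - f x‖ ≤ B * |y - x|) : Top 1 S f B := by
  intro x hx y hy
  have : 0 < |y - x| := abs_pos.2 (sub_ne_zero.2 hy.2)
  simp only [D, norm_smul, norm_inv, Real.norm_eq_abs]
  rw [inv_mul_le_iff₀ this, mul_comm]
  exact h x hx y hy.1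

lemma Top.lip {S : Set ℝ} {f : ℝ → V} {B : ℝ} (h : Top 1 S f B) {x y : ℝ} (hx : x ∈ S)
    (hy : y ∈ S) : ‖f y - f x‖ ≤ B * |y - x| := by
  by_cases e : y = x
  · simp [e]
  · have := h x hx y ⟨hy, e⟩
    rw [D_eq f e, add_sub_cancel_left, norm_smul, mul_comm]
    exact mul_le_mul_of_nonneg_right this (abs_nonneg _)

lemma Top.vanish {N : ℕ} : ∀ {S : Set ℝ} {f : ℝ → V} {B d u : ℝ} (T : Finset ℝ), Top N S f B →
    N ≤ T.card → (∀ x ∈ T, x ∈ S ∧ f x = 0 ∧ |u - x| ≤ d) → 0 ≤ B → 0 ≤ d → u ∈ S →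
    ‖f u‖ ≤ B * d ^ N := by
  induction N with
  | zero => intro S f B d u T h _ _ _ _ hu; simpa using h u hu
  | succ N ih =>
    intro S f B d u T h hT hz hB hd hu
    obtain ⟨x, hx⟩ : T.Nonempty := Finset.card_pos.1 (by omega)
    obtain ⟨h1, h2, h3⟩ := hz x hx
    by_cases e : u = x
    · rw [e, h2, norm_zero]; positivity
    · have := ih (T.erase x) (h x h1) (u := u) (d := d)
        (by rw [Finset.card_erase_of_mem hx]; omega) (fun z hz' => by
          obtain ⟨a, b⟩ := Finset.mem_erase.1 hz'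
          obtain ⟨c1, c2, c3⟩ := hz z b
          exact ⟨⟨c1, a⟩, by simp [D, h2, c2], c3⟩) hB hd ⟨hu, e⟩
      rw [D_eq f e, h2, zero_add, norm_smul, pow_succ, ← mul_assoc, mul_comm]
      exact mul_le_mul this h3 (abs_nonneg _) (by positivity)

lemma cls_succ {N : ℕ} {S : Set ℝ} {f : ℝ → V} {B : ℝ} : Cls (N + 1) S f B ↔
    (∀ y ∈ S, ‖f y‖ ≤ B) ∧ ∀ x ∈ S, Cls N (S \ {x}) (D x f) B := by
  constructor
  · intro h
    exact ⟨h 0 (by omega), fun x hx k hk => h (k + 1) (by omega) x hx⟩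
  · rintro ⟨h1, h2⟩ k hk
    cases k with
    | zero => exact h1
    | succ k => exact fun x hx => h2 x hx k (by omega)

lemma cls_zero {S : Set ℝ} {f : ℝ → V} {B : ℝ} : Cls 0 S f B ↔ ∀ y ∈ S, ‖f y‖ ≤ B := by
  constructor
  · intro h; exact h 0 le_rfl
  · intro h k hk
    obtain rfl : k = 0 := by omega
    exact h

section
variable {N N' : ℕ} {S S' : Set ℝ} {f g : ℝ → V} {B B' : ℝ}

lemma Cls.bound (h : Cls N S f B) {y : ℝ} (hy : y ∈ S) : ‖f y‖ ≤ B := h 0 (Nat.zero_le _) y hy

lemma Cls.mono (h : Cls N S f B) (hN : N' ≤ N) (hS : S' ⊆ S) (hB : B ≤ B') : Cls N' S' f B' :=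
  fun k hk => (h k (hk.trans hN)).mono hS hB

lemma Cls.congr (h : Cls N S f B) (e : EqOn g f S) : Cls N S g B :=
  fun k hk => (h k hk).congr e

lemma Cls.add (h : Cls N S f B) (h' : Cls N S g B') : Cls N S (fun y => f y + g y) (B + B') :=
  fun k hk => (h k hk).add (h' k hk)

lemma Cls.map (L : V →ₗ[ℝ] W) {K : ℝ} (hK : 0 ≤ K) (hL : ∀ v, ‖L v‖ ≤ K * ‖v‖)
    (h : Cls N S f B) : Cls N S (fun y => L (f y)) (K * B) :=
  fun k hk => (h k hk).map L hK hL

lemma Cls.sub (h : Cls N S f B) (h' : Cls N S g B') : Cls N S (fun y => f y - g y) (B + B') := by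
  have := h.add (fun k hk => (h' k hk).smul (-1))
  simpa [sub_eq_add_neg] using this

lemma cls_const {c : V} (h : ‖c‖ ≤ B) : Cls N S (fun _ => c) B := by
  intro k _
  cases k with
  | zero => exact fun _ _ => h
  | succ k =>
    exact fun x _ => (top_zero_fun ((norm_nonneg _).trans h)).congr fun y _ => by simp [D]

lemma cls_sum {ι : Type} (s : Finset ι) {F : ι → ℝ → V} (hB : 0 ≤ B)
    (h : ∀ i ∈ s, Cls N S (F i) B) : Cls N S (fun y => ∑ i ∈ s, F i y) (s.card * B) := by
  classical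
  induction s using Finset.induction_on with
  | empty => simpa using cls_const (c := (0 : V)) (by simp)
  | insert a s ha ih =>
    have := (h a (by simp)).add (ih fun i hi => h i (by simp [hi]))
    simp only [Finset.sum_insert ha, Finset.card_insert_of_notMem ha]
    refine this.mono le_rfl le_rfl (le_of_eq ?_)
    push_cast; ring

end

lemma Cls.mul {A : Type} [NormedRing A] [NormedAlgebra ℝ A] {N : ℕ} :
    ∀ {S : Set ℝ} {f g : ℝ → A} {B B' : ℝ}, 0 ≤ B → 0 ≤ B' → Cls N S f B → Cls N S g B' →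
    Cls N S (fun y => f y * g y) (2 ^ N * (B * B')) := by
  induction N with
  | zero =>
    intro S f g B B' hB _ h h'
    rw [cls_zero] at *
    intro y hy
    simpa using (norm_mul_le _ _).trans (mul_le_mul (h y hy) (h' y hy) (norm_nonneg _) hB)
  | succ N ih =>
    intro S f g B B' hB hB' h h'
    have k1 := cls_succ.1 h
    have k2 := cls_succ.1 h'
    refine cls_succ.2 ⟨fun y hy => ?_, fun x hx => ?_⟩
    · refine ((norm_mul_le _ _).trans
        (mul_le_mul (k1.1 y hy) (k2.1 y hy) (norm_nonneg _) hB)).trans ?_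
      exact le_mul_of_one_le_left (by positivity) (one_le_pow₀ (by norm_num))
    · have a1 := ih hB hB' (k1.2 x hx) (h'.mono (Nat.le_succ N) diff_subset le_rfl)
      have a2 := ih hB hB' (cls_const (k1.1 x hx)) (k2.2 x hx)
      refine ((a1.add a2).mono le_rfl le_rfl (le_of_eq (by ring))).congr fun y _ => ?_
      simp only [D, smul_mul_assoc, mul_smul_comm, ← smul_add]
      congr 1; noncomm_ring

lemma interp (N : ℕ) {θ : ℝ} (hθ : 0 < θ) : ∃ K : ℝ, 1 ≤ K ∧ ∀ (S : Set ℝ) (f : ℝ → V)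
    (A : ℝ) (T : Finset ℝ), 0 ≤ A → S ⊆ Ioo 0 1 → Top N S f A → N ≤ T.card →
    (∀ x ∈ T, x ∈ S ∧ ‖f x‖ ≤ A) → (∀ x ∈ T, ∀ y ∈ T, x ≠ y → θ ≤ |y - x|) →
    ∀ y ∈ S, ‖f y‖ ≤ K * A := by
  induction N with
  | zero => exact ⟨1, le_rfl, fun S f A T _ _ h _ _ _ y hy => by simpa using h y hy⟩
  | succ N ih =>
    obtain ⟨K, hK, ih⟩ := ih
    have hθ' : 0 ≤ 2 / θ := by positivity
    refine ⟨1 + K * (1 + 2 / θ), by nlinarith, fun S f A T hA hS h hT h1 h2 y hy => ?_⟩
    obtain ⟨x, hx⟩ : T.Nonempty := Finset.card_pos.1 (by omega)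
    have hKA : 0 ≤ K * ((1 + 2 / θ) * A) := by positivity
    by_cases e : y = x
    · rw [e]; nlinarith [(h1 x hx).2]
    have := ih (S \ {x}) (D x f) ((1 + 2 / θ) * A) (T.erase x) (by positivity)
      (diff_subset.trans hS) ((h x (h1 x hx).1).mono le_rfl (by nlinarith))
      (by rw [Finset.card_erase_of_mem hx]; omega) (fun z hz => by
        obtain ⟨a, b⟩ := Finset.mem_erase.1 hz
        refine ⟨⟨(h1 z b).1, a⟩, ?_⟩
        have h3 := h2 x hx z b a.symm
        simp only [D, norm_smul, norm_inv, Real.norm_eq_abs]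
        have h4 : ‖f z - f x‖ ≤ 2 * A := by
          linarith [norm_sub_le (f z) (f x), (h1 z b).2, (h1 x hx).2]
        have h5 : |z - x|⁻¹ ≤ θ⁻¹ := inv_anti₀ hθ h3
        calc _ ≤ θ⁻¹ * (2 * A) := mul_le_mul h5 h4 (norm_nonneg _) (by positivity)
          _ = 2 / θ * A := by ring
          _ ≤ _ := by nlinarith)
      (fun a ha b hb => h2 a (Finset.mem_of_mem_erase ha) b (Finset.mem_of_mem_erase hb))
      y ⟨hy, e⟩
    rw [D_eq f e]
    have h6 : |y - x| ≤ 1 := by
      have := hS hy; have := hS (h1 x hx).1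
      rw [abs_le]; constructor <;> simp_all <;> linarith
    have h7 : ‖(y - x) • D x f y‖ ≤ 1 * (K * ((1 + 2 / θ) * A)) := by
      rw [norm_smul]; exact mul_le_mul h6 this (norm_nonneg _) zero_le_one
    linarith [norm_add_le (f x) ((y - x) • D x f y), (h1 x hx).2]

lemma lk_nodes (N : ℕ) {θ : ℝ} (hθ : 0 < θ) : ∃ K : ℝ, 1 ≤ K ∧ ∀ (S : Set ℝ) (f : ℝ → V)
    (A : ℝ) (T : Finset ℝ), 0 ≤ A → S ⊆ Ioo 0 1 → Top N S f A → N ≤ T.card →
    (∀ x ∈ T, x ∈ S ∧ ‖f x‖ ≤ A) → (∀ x ∈ T, ∀ y ∈ T, x ≠ y → θ ≤ |y - x|) →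
    Cls N S f (K * A) := by
  induction N with
  | zero => exact ⟨1, le_rfl, fun S f A T _ _ h _ _ _ => cls_zero.2 (by rw [one_mul]; exact h)⟩
  | succ N ih =>
    obtain ⟨K, hK, ih⟩ := ih
    obtain ⟨K', hK', hi⟩ := interp (V := V) (N + 1) hθ
    have hθ' : 0 ≤ 4 / θ := by positivity
    have hc : 1 ≤ K' * (1 + 4 / θ) := by nlinarith
    refine ⟨K * (K' * (1 + 4 / θ)), by nlinarith, fun S f A T hA hS h hT h1 h2 => ?_⟩
    have hb := hi S f A T hA hS h hT h1 h2
    have hKA : 0 ≤ K' * A := by positivity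
    refine cls_succ.2 ⟨fun y hy => (hb y hy).trans ?_, fun x hx => ?_⟩
    · refine mul_le_mul_of_nonneg_right ?_ hA
      have : K' ≤ K' * (1 + 4 / θ) := by nlinarith
      nlinarith
    · rw [mul_assoc]
      refine ih (S \ {x}) (D x f) _ (T.filter fun z => θ / 2 ≤ |z - x|) (by positivity)
        (diff_subset.trans hS) ((h x hx).mono le_rfl (by nlinarith)) ?_ (fun z hz => ?_)
        (fun a ha b hb => h2 a (Finset.mem_of_mem_filter _ ha) b (Finset.mem_of_mem_filter _ hb))
      · have h3 : (T.filter fun z => ¬ θ / 2 ≤ |z - x|).card ≤ 1 := by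
          rw [Finset.card_le_one]
          intro a ha b hb
          rw [Finset.mem_filter] at ha hb
          by_contra hne
          have := h2 a ha.1 b hb.1 hne
          have e : b - a = (b - x) - (a - x) := by ring
          have := abs_sub (b - x) (a - x)
          rw [← e] at this
          linarith [not_le.1 ha.2, not_le.1 hb.2]
        have := Finset.card_filter_add_card_filter_not (s := T) (fun z => θ / 2 ≤ |z - x|)
        omega
      · obtain ⟨a, b⟩ := Finset.mem_filter.1 hz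
        refine ⟨⟨(h1 z a).1, fun e => ?_⟩, ?_⟩
        · rw [mem_singleton_iff.1 e] at b; simp at b; linarith
        simp only [D, norm_smul, norm_inv, Real.norm_eq_abs]
        have h4 : ‖f z - f x‖ ≤ 2 * (K' * A) := by
          linarith [norm_sub_le (f z) (f x), hb z (h1 z a).1, hb x hx]
        have h5 : |z - x|⁻¹ ≤ (θ / 2)⁻¹ := inv_anti₀ (by positivity) b
        calc _ ≤ (θ / 2)⁻¹ * (2 * (K' * A)) := mul_le_mul h5 h4 (norm_nonneg _) (by positivity)
          _ = 4 / θ * (K' * A) := by ring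
          _ ≤ _ := by nlinarith

/-- Landau-Kolmogorov type inequality. -/
lemma lk (N : ℕ) {θ : ℝ} (hθ : 0 < θ) : ∃ K : ℝ, 1 ≤ K ∧ ∀ (f : ℝ → V) (A a : ℝ), 0 ≤ A →
    Top N (Ioo 0 1) f A → 0 ≤ a → a + θ ≤ 1 → (∀ y ∈ Ioo a (a + θ), ‖f y‖ ≤ A) →
    Cls N (Ioo 0 1) f (K * A) := by
  have h0 : 0 < θ / (N + 1) := by positivity
  obtain ⟨K, hK, h⟩ := lk_nodes (V := V) N h0
  refine ⟨K, hK, fun f A a hA ht ha ha' hb => ?_⟩
  have hinj : Function.Injective fun k : ℕ => a + (k + 1) * (θ / (N + 1)) := by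
    intro i j hij
    have : ((i : ℝ) + 1) = j + 1 := mul_right_cancel₀ h0.ne' (add_left_cancel hij)
    exact_mod_cast add_right_cancel this
  refine h _ f A ((Finset.range N).image fun k : ℕ => a + (k + 1) * (θ / (N + 1))) hA le_rfl ht
    (by rw [Finset.card_image_of_injective _ hinj, Finset.card_range]) ?_ ?_
  · intro x hx
    obtain ⟨k, hk, rfl⟩ := Finset.mem_image.1 hx
    have h1 : ((k : ℝ) + 1) < N + 1 := by
      have := Finset.mem_range.1 hk
      exact_mod_cast Nat.succ_lt_succ this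
    have h2 : 0 < ((k : ℝ) + 1) * (θ / (N + 1)) := by positivity
    have h3 : ((k : ℝ) + 1) * (θ / (N + 1)) < θ := by
      calc _ < ((N : ℝ) + 1) * (θ / (N + 1)) := mul_lt_mul_of_pos_right h1 h0
        _ = θ := by field_simp
    exact ⟨⟨by linarith, by linarith⟩, hb _ ⟨by linarith, by linarith⟩⟩
  · intro x hx y hy hne
    obtain ⟨i, _, rfl⟩ := Finset.mem_image.1 hx
    obtain ⟨j, _, rfl⟩ := Finset.mem_image.1 hy
    have hij : i ≠ j := fun e => hne (by rw [e])
    have e : a + (j + 1) * (θ / (N + 1)) - (a + (i + 1) * (θ / (N + 1)))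
        = ((j : ℝ) - i) * (θ / (N + 1)) := by ring
    rw [e, abs_mul, abs_of_pos h0]
    have : (1 : ℝ) ≤ |(j : ℝ) - i| := by
      have : (1 : ℤ) ≤ |(j : ℤ) - i| := Int.one_le_abs (by omega)
      exact_mod_cast this
    nlinarith

end Pool.Agent.H286Z.Roots
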