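import Pool.Agent.H286Z.Roots.Cls

set_option autoImplicit false

namespace Pool.Agent.H286Z.Roots
open Set MeasureTheory Metric

lemma vit (E A : Set ℝ) (σ : ℝ → ℝ) {κ : ℝ} (hκ : 0 ≤ κ) (hA : A ⊆ Ioo 0 1)
    (hσ : ∀ t ∈ A, 0 < σ t ∧ σ t ≤ 1)
    (h : ∀ t ∈ A, volume (E ∩ {x | x ∈ A ∧ closedBall x (σ x) ⊆ closedBall t (5 * σ t)})
      ≤ ENNReal.ofReal (κ * σ t)) : volume (E ∩ A) ≤ ENNReal.ofReal (2 * κ) := by
  obtain ⟨u, hu, hd, hc⟩ := Vitali.exists_disjoint_subfamily_covering_enlargement_closedBall A id σ 1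
    (fun a ha => (hσ a ha).2) 5 (by norm_num)
  simp only [id] at hd hc
  have hcount : u.Countable := hd.countable_of_nonempty_interior fun a ha =>
    ⟨a, ball_subset_interior_closedBall (mem_ball_self (hσ a (hu ha)).1)⟩
  have h1 : E ∩ A ⊆ ⋃ b ∈ u, E ∩ {x | x ∈ A ∧ closedBall x (σ x) ⊆ closedBall b (5 * σ b)} := by
    rintro x ⟨hx, hx'⟩
    obtain ⟨b, hb, h'⟩ := hc x hx'
    exact mem_biUnion hb ⟨hx, hx', h'⟩
  refine (measure_mono h1).trans ((measure_biUnion_le volume hcount _).trans ?_)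
  calc _ ≤ ∑' b : u, ENNReal.ofReal (κ / 2) * volume (closedBall (b : ℝ) (σ b)) := by
        refine ENNReal.tsum_le_tsum fun b => (h b (hu b.2)).trans (le_of_eq ?_)
        rw [Real.volume_closedBall, ← ENNReal.ofReal_mul (by positivity)]
        congr 1; ring
    _ = ENNReal.ofReal (κ / 2) * volume (⋃ b ∈ u, closedBall b (σ b)) := by
        rw [ENNReal.tsum_mul_left, measure_biUnion hcount hd fun _ _ => measurableSet_closedBall]
    _ ≤ ENNReal.ofReal (κ / 2) * volume (Icc (-1 : ℝ) 2) := by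
        gcongr
        refine iUnion₂_subset fun b hb => ?_
        rw [Real.closedBall_eq_Icc]
        have := hA (hu hb); have := hσ b (hu hb)
        exact Icc_subset_Icc (by linarith [this.2, (hA (hu hb)).1]) (by linarith [(hA (hu hb)).2])
    _ ≤ _ := by
        rw [Real.volume_Icc, ← ENNReal.ofReal_mul (by positivity)]
        exact ENNReal.ofReal_le_ofReal (by linarith)

lemma pick (S : Set ℝ) {a b : ℝ} (ha : a ∈ S) (h0 : 0 < a) (hb : ∀ x ∈ S, x ≤ b) :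
    ∃ σ ∈ S, a ≤ σ ∧ ∀ x ∈ S, x < 2 * σ := by
  have hbd : BddAbove S := ⟨b, hb⟩
  have h1 : a ≤ sSup S := le_csSup hbd ha
  obtain ⟨σ, hσ, h2⟩ := exists_lt_of_lt_csSup (s := S) ⟨a, ha⟩ (b := sSup S / 2) (by linarith)
  by_cases h : a ≤ σ
  · exact ⟨σ, hσ, h, fun x hx => by linarith [le_csSup hbd hx]⟩
  · exact ⟨a, ha, le_rfl, fun x hx => by linarith [le_csSup hbd hx]⟩

lemma sep_cover (A : Set ℝ) {d : ℝ} (hd : 0 ≤ d) (N : ℕ)
    (h : ∀ F : Finset ℝ, (∀ x ∈ F, x ∈ A) → (∀ x ∈ F, ∀ y ∈ F, x ≠ y → d < |x - y|) → F.card ≤ N) :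
    ∃ F : Finset ℝ, (∀ x ∈ F, x ∈ A) ∧ F.card ≤ N ∧ ∀ x ∈ A, ∃ y ∈ F, |x - y| ≤ d := by
  classical
  let P : ℕ → Prop := fun n => ∃ F : Finset ℝ, (∀ x ∈ F, x ∈ A) ∧
    (∀ x ∈ F, ∀ y ∈ F, x ≠ y → d < |x - y|) ∧ F.card = n
  obtain ⟨F, h1, h2, h3⟩ : P (Nat.findGreatest P N) :=
    Nat.findGreatest_spec (Nat.zero_le N) ⟨∅, by simp, by simp, rfl⟩
  refine ⟨F, h1, h F h1 h2, fun x hx => ?_⟩
  by_contra hc
  push Not at hc
  have hxF : x ∉ F := fun hx' => by have := hc x hx'; simp at this; linarith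
  have a1 : ∀ y ∈ insert x F, y ∈ A := by
    intro y hy; rcases Finset.mem_insert.1 hy with rfl | hy
    exacts [hx, h1 y hy]
  have a2 : ∀ y ∈ insert x F, ∀ z ∈ insert x F, y ≠ z → d < |y - z| := by
    intro y hy z hz hne
    rcases Finset.mem_insert.1 hy with rfl | hy' <;> rcases Finset.mem_insert.1 hz with rfl | hz'
    · exact (hne rfl).elim
    · exact hc z hz'
    · rw [abs_sub_comm]; exact hc y hy'
    · exact h2 y hy' z hz' hne
  have := Nat.le_findGreatest (P := P) (h _ a1 a2) ⟨_, a1, a2, rfl⟩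
  rw [Finset.card_insert_of_notMem hxF] at this
  omega

/-- one dyadic level inside a window where no value is taken `j` times -/
lemma level (j : ℕ) {c C : ℝ} (hc : 0 < c) (hC : 0 ≤ C) : ∃ N : ℕ, ∀ (g : ℝ → ℝ) (E A : Set ℝ)
    (a b H η κ : ℝ), 0 < H → 0 < η → 0 ≤ κ → ContinuousOn g (Ioo a b) →
    (∀ (v : ℝ) (T : Finset ℝ), (∀ x ∈ T, x ∈ Ioo a b ∧ g x = v) → T.card < j) →
    (∀ t ∈ A, t ∈ Ioo a b ∧ |g t| ≤ C * H ∧ (∃ y ∈ Ioo a b, |y - t| < 2 * η ∧ c * H ≤ |g y - g t|) ∧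
      volume (E ∩ closedBall t (4 * η)) ≤ ENNReal.ofReal κ) →
    volume (E ∩ A) ≤ ENNReal.ofReal (N * κ) := by
  classical
  obtain ⟨Z, hZ⟩ := exists_nat_ge (C / c + 1)
  refine ⟨(Finset.Icc (-(Z : ℤ)) Z).card * j, fun g E A a b H η κ hH hη hκ hg hv hA => ?_⟩
  have key : ∀ t ∈ A, ∃ k ∈ Finset.Icc (-(Z : ℤ)) Z, ∃ w ∈ Ioo a b, |w - t| < 2 * η ∧
      g w = k * (c * H) := by
    intro t ht
    obtain ⟨h1, h2, ⟨y, hy, h3, h4⟩, _⟩ := hA t ht
    have hcH : 0 < c * H := by positivity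
    have hsub : uIcc t y ⊆ Ioo a b := ordConnected_Ioo.uIcc_subset h1 hy
    have hb : |g t / (c * H)| ≤ C / c := by
      rw [abs_div, abs_of_pos hcH, div_le_iff₀ hcH]
      calc _ ≤ C * H := h2
        _ = _ := by field_simp
    obtain ⟨k, hk, hk'⟩ : ∃ k : ℤ, |(k : ℝ) - g t / (c * H)| ≤ 1 ∧
        k * (c * H) ∈ uIcc (g t) (g y) := by
      rcases le_total (g t) (g y) with h | h
      · refine ⟨⌈g t / (c * H)⌉, ?_, ?_⟩
        · rw [abs_le]
          constructor <;> linarith [Int.le_ceil (g t / (c * H)), Int.ceil_lt_add_one (g t / (c * H))]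
        · rw [uIcc_of_le h]
          rw [abs_of_nonneg (by linarith)] at h4
          have e1 := (div_le_iff₀ hcH).1 (Int.le_ceil (g t / (c * H)))
          have e2 := (lt_div_iff₀ hcH).1 (sub_lt_iff_lt_add.2 (Int.ceil_lt_add_one (g t / (c * H))))
          exact ⟨e1, by linarith⟩
      · refine ⟨⌊g t / (c * H)⌋, ?_, ?_⟩
        · rw [abs_le]
          constructor <;> linarith [Int.floor_le (g t / (c * H)), Int.lt_floor_add_one (g t / (c * H))]
        · rw [uIcc_of_ge h]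
          rw [abs_of_nonpos (by linarith)] at h4
          have e1 := (le_div_iff₀ hcH).1 (Int.floor_le (g t / (c * H)))
          have e2 := (div_lt_iff₀ hcH).1 (Int.lt_floor_add_one (g t / (c * H)))
          exact ⟨by linarith, e1⟩
    obtain ⟨w, hw, hw'⟩ := intermediate_value_uIcc (hg.mono hsub) hk'
    refine ⟨k, ?_, w, hsub hw, (abs_sub_left_of_mem_uIcc hw).trans_lt h3, hw'⟩
    rw [abs_le] at hk hb
    rw [Finset.mem_Icc]
    constructor
    · have : -(Z : ℝ) ≤ k := by linarith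
      exact_mod_cast this
    · have : (k : ℝ) ≤ Z := by linarith
      exact_mod_cast this
  choose! k hk w hw hw1 hw2 using key
  obtain ⟨F, h1, h2, h3⟩ := sep_cover A (d := 4 * η) (by positivity)
    ((Finset.Icc (-(Z : ℤ)) Z).card * j) (fun F hF hs => by
      by_contra hlt
      obtain ⟨v, _, hv'⟩ := Finset.exists_lt_card_fiber_of_mul_lt_card_of_maps_to
        (fun x hx => hk x (hF x hx)) (not_le.1 hlt)
      have := hv (v * (c * H)) ((F.filter fun x => k x = v).image w) (by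
        intro x hx
        obtain ⟨t, ht, rfl⟩ := Finset.mem_image.1 hx
        rw [Finset.mem_filter] at ht
        exact ⟨hw t (hF t ht.1), by rw [hw2 t (hF t ht.1), ht.2]⟩)
      rw [Finset.card_image_of_injOn] at this
      · omega
      · intro x hx y hy e
        have hx' := Finset.mem_of_mem_filter _ hx
        have hy' := Finset.mem_of_mem_filter _ hy
        by_contra hne
        have a1 := hs x hx' y hy' hne
        have a2 := hw1 x (hF x hx')
        have a3 := hw1 y (hF y hy')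
        rw [e] at a2
        rw [abs_lt] at a2 a3
        rcases lt_abs.1 a1 with h | h <;> linarith [a2.1, a2.2, a3.1, a3.2])
  have h4 : E ∩ A ⊆ ⋃ y ∈ F, E ∩ closedBall y (4 * η) := by
    rintro x ⟨hx, hx'⟩
    obtain ⟨y, hy, h⟩ := h3 x hx'
    exact mem_biUnion hy ⟨hx, h⟩
  refine (measure_mono h4).trans ((measure_biUnion_finset_le _ _).trans ?_)
  refine (Finset.sum_le_card_nsmul _ _ _ fun y hy => (hA y (h1 y hy)).2.2.2).trans ?_
  rw [nsmul_eq_mul, ENNReal.ofReal_mul (by positivity), ENNReal.ofReal_natCast]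
  gcongr

lemma inter_ball {t ε : ℝ} : Ioo 0 1 ∩ ball t ε = Ioo (max 0 (t - ε)) (min 1 (t + ε)) := by
  rw [Real.ball_eq_Ioo, Ioo_inter_Ioo]

lemma cov (i : ℕ) (hi : i ≠ 0) {M c C : ℝ} (hM : 0 < M) (hc : 0 < c) (hC : 0 ≤ C) :
    ∃ K w0 : ℝ, 0 ≤ K ∧ 1 ≤ w0 ∧ ∀ (g : ℝ → ℝ) (E A : Set ℝ) (r ρ : ℝ → ℝ) (w κ : ℝ), w0 ≤ w →
    0 ≤ κ → Cls (i + 1) (Ioo 0 1) g M →
    (∀ t ∈ A, t ∈ Ioo (0 : ℝ) 1 ∧ 0 < r t ∧ w ^ i * r t ≤ ρ t ∧ ρ t ≤ 2 * w ^ i * r t ∧
      |g t| ≤ C * ρ t ^ (i + 1) ∧ (∃ y ∈ Ioo (0 : ℝ) 1, |y - t| < 2 * r t ∧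
        c * ρ t ^ (i + 1) ≤ |g y - g t|) ∧
      volume (E ∩ ball t (17 * r t)) ≤ ENNReal.ofReal (κ * r t)) →
    volume (E ∩ A) ≤ ENNReal.ofReal (K * κ / w ^ (i + 1)) := by
  obtain ⟨N, hN⟩ := level (i + 1) (c := c / 2 ^ (i + 1)) (by positivity) hC
  obtain ⟨K1, hK1, hlk⟩ := lk (V := ℝ) (i + 1) (θ := 1) one_pos
  set K0 := 2 * M * 14 ^ (i + 1) with hK0
  have hK0p : 0 < K0 := by positivity
  have hMK : 2 * M ≤ K0 := le_mul_of_one_le_right (by positivity) (one_le_pow₀ (by norm_num))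
  set K2 := 1 + 2 * (K1 * (K0 * 14 ^ (i + 1))) / c with hK2
  have hK2p : 1 ≤ K2 := le_add_of_nonneg_right (by positivity)
  refine ⟨4 * N * K2, 1 + K0 * 2 ^ (i + 1) / c, by positivity,
    le_add_of_nonneg_right (by positivity), fun g E A r ρ w κ hw hκ hg hA => ?_⟩
  have hw1 : 1 ≤ w := le_trans (le_add_of_nonneg_right (by positivity)) hw
  have hu : 0 < w ^ i := by positivity
  have hlip : ∀ x ∈ Ioo (0 : ℝ) 1, ∀ y ∈ Ioo (0 : ℝ) 1, |g y - g x| ≤ M * |y - x| :=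
    fun x hx y hy => (hg 1 (by omega)).lip hx hy
  have hcont : ContinuousOn g (Ioo 0 1) := by
    refine (LipschitzOnWith.of_dist_le_mul (K := ⟨M, hM.le⟩) fun x hx y hy => ?_).continuousOn
    exact hlip y hy x hx
  have key : ∀ t ∈ A, ∃ σ, (∃ y ∈ Ioo (0 : ℝ) 1, |y - t| < σ ∧ K0 * σ ^ (i + 1) < |g y - g t|) ∧
      σ ≤ 1 ∧ 2 * r t ≤ σ ∧
      ∀ y ∈ Ioo (0 : ℝ) 1, |y - t| < 7 * σ → |g y - g t| ≤ K0 * (7 * σ) ^ (i + 1) := by
    intro t ht
    obtain ⟨h1, h2, h3, _, _, ⟨y, hy, h6, h7⟩, _⟩ := hA t ht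
    have hb : ∀ σ ∈ {σ | ∃ y ∈ Ioo (0 : ℝ) 1, |y - t| < σ ∧ K0 * σ ^ (i + 1) < |g y - g t|},
        σ ≤ 1 := by
      rintro σ ⟨y, hy, _, h⟩
      by_contra h'
      have a1 := hlip t h1 y hy
      have a2 : |y - t| ≤ 1 := by rw [abs_le]; constructor <;> linarith [h1.1, h1.2, hy.1, hy.2]
      have a3 : 1 ≤ σ ^ (i + 1) := one_le_pow₀ (not_le.1 h').le
      nlinarith
    obtain ⟨σ, hσ, h8, h9⟩ := pick
      {σ | ∃ y ∈ Ioo (0 : ℝ) 1, |y - t| < σ ∧ K0 * σ ^ (i + 1) < |g y - g t|}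
      (a := 2 * r t) ⟨y, hy, h6, by
      refine lt_of_lt_of_le ?_ h7
      have a1 : (w * r t) ^ (i + 1) ≤ ρ t ^ (i + 1) := by
        refine pow_le_pow_left₀ (by positivity) (le_trans ?_ h3) _
        exact mul_le_mul_of_nonneg_right (le_self_pow₀ hw1 hi) h2.le
      have a2 : K0 * 2 ^ (i + 1) < c * w ^ (i + 1) := by
        have : w ≤ w ^ (i + 1) := le_self_pow₀ hw1 (by omega)
        have : K0 * 2 ^ (i + 1) / c < w ^ (i + 1) := by linarith
        rwa [div_lt_iff₀ hc, mul_comm _ c] at this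
      have a3 : 0 < r t ^ (i + 1) := by positivity
      rw [mul_pow] at a1 ⊢
      nlinarith⟩ (by positivity) hb
    refine ⟨σ, hσ, hb σ hσ, h8, fun y hy hy' => ?_⟩
    by_contra h'
    have := h9 (7 * σ) ⟨y, hy, hy', not_le.1 h'⟩
    linarith
  choose! σ hσ1 hσ2 hσ3 hσ4 using key
  have hσ0 : ∀ t ∈ A, 0 < σ t := fun t ht => by linarith [hσ3 t ht, (hA t ht).2.1]
  refine (vit E A σ (κ := 2 * N * K2 * κ / w ^ (i + 1)) (by positivity) (fun t ht => (hA t ht).1)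
    (fun t ht => ⟨hσ0 t ht, hσ2 t ht⟩) fun t ht => ?_).trans (le_of_eq (by congr 1; ring))
  have s0 := hσ0 t ht
  have t0 := (hA t ht).1
  set s := σ t with hs
  set a := max 0 (t - 7 * s) with ha
  set b := min 1 (t + 7 * s) with hb
  have hab : ∀ y, y ∈ Ioo a b ↔ y ∈ Ioo (0 : ℝ) 1 ∧ |y - t| < 7 * s := fun y => by
    rw [← inter_ball]; rfl
  have hL1 : s ≤ b - a := by
    have := hσ2 t ht
    rw [ha, hb, max_def, min_def]
    split_ifs <;> linarith [t0.1, t0.2]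
  have hL2 : b - a ≤ 14 * s := by linarith [le_max_right 0 (t - 7 * s), min_le_right 1 (t + 7 * s)]
  have hL0 : 0 < b - a := by linarith
  have hsub : Ioo a b ⊆ Ioo 0 1 := fun y hy => ((hab y).1 hy).1
  have haff : ∀ y ∈ Ioo (0 : ℝ) 1, a + (b - a) * y ∈ Ioo a b := fun y hy =>
    ⟨by nlinarith [hy.1], by nlinarith [hy.2]⟩
  have hwin : ∀ x ∈ Ioo a b, ∀ y ∈ Ioo a b,
      |g y - g x| ≤ K1 * (K0 * 14 ^ (i + 1)) * s ^ i * |y - x| := by
    have a1 := ((((hg (i + 1) le_rfl).mono hsub le_rfl).sub_const (g t)).affine a hL0).mono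
      (S' := Ioo 0 1) haff (B' := K0 * (14 * s) ^ (i + 1)) (by
        rw [mul_comm]
        exact mul_le_mul (by linarith) (pow_le_pow_left₀ hL0.le hL2 _) (by positivity) hK0p.le)
    have a2 := hlk _ _ 0 (by positivity) a1 le_rfl (by norm_num) (fun y hy => by
      have h := (hab _).1 (haff y (by simpa using hy))
      refine (hσ4 t ht _ h.1 h.2).trans ?_
      gcongr; norm_num)
    intro x hx y hy
    have hx' : (x - a) / (b - a) ∈ Ioo (0 : ℝ) 1 :=
      ⟨div_pos (by linarith [hx.1]) hL0, (div_lt_one hL0).2 (by linarith [hx.2])⟩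
    have hy' : (y - a) / (b - a) ∈ Ioo (0 : ℝ) 1 :=
      ⟨div_pos (by linarith [hy.1]) hL0, (div_lt_one hL0).2 (by linarith [hy.2])⟩
    have a3 := (a2 1 (by omega)).lip hx' hy'
    have e : ∀ z, a + (b - a) * ((z - a) / (b - a)) = z := fun z => by field_simp; ring
    simp only [e, sub_sub_sub_cancel_right, Real.norm_eq_abs, ← sub_div, abs_div,
      abs_of_pos hL0] at a3
    refine a3.trans ?_
    have a4 : |y - x| / (b - a) ≤ |y - x| / s := by gcongr
    calc _ ≤ K1 * (K0 * (14 * s) ^ (i + 1)) * (|y - x| / s) := by gcongr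
      _ = _ := by rw [mul_pow, pow_succ s]; field_simp
  have hzero : ∀ (v : ℝ) (T : Finset ℝ), (∀ x ∈ T, x ∈ Ioo a b ∧ g x = v) → T.card < i + 1 := by
    intro v T hT
    by_contra hlt
    have a1 : ∀ u ∈ Ioo a b, |g u - v| ≤ M * (14 * s) ^ (i + 1) := fun u hu =>
      (((hg (i + 1) le_rfl).mono hsub le_rfl).sub_const v).vanish T (not_lt.1 hlt)
        (fun x hx => ⟨(hT x hx).1, by simp [(hT x hx).2], by
          have := (hT x hx).1
          rw [abs_le]; constructor <;> linarith [this.1, this.2, hu.1, hu.2]⟩)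
        hM.le (by positivity) hu
    obtain ⟨y, hy, h1, h2⟩ := hσ1 t ht
    have a2 := a1 y ((hab y).2 ⟨hy, by linarith⟩)
    have a3 := a1 t ((hab t).2 ⟨t0, by simpa using s0⟩)
    have a4 := abs_sub_le (g y) v (g t)
    rw [abs_sub_comm v] at a4
    rw [mul_pow] at a2 a3
    rw [hK0] at h2
    linarith
  set R := K2 * s / w with hR
  have hR0 : 0 < R := by positivity
  set A' := {x | x ∈ A ∧ closedBall x (σ x) ⊆ closedBall t (5 * s)}
  have hA' : ∀ x ∈ A', ∀ y ∈ Ioo (0 : ℝ) 1, |y - x| < 2 * r x → y ∈ Ioo a b := by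
    intro x hx y hy h
    have : y ∈ closedBall t (5 * s) := hx.2 (by
      rw [mem_closedBall, Real.dist_eq]; linarith [hσ3 x hx.1])
    rw [mem_closedBall, Real.dist_eq] at this
    exact (hab y).2 ⟨hy, by linarith⟩
  have hρ : ∀ x ∈ A', 0 < ρ x ∧ ρ x ≤ R := by
    intro x hx
    obtain ⟨h1, h2, h3, _, _, ⟨y, hy, h6, h7⟩, _⟩ := hA x hx.1
    have p0 : 0 < ρ x := lt_of_lt_of_le (by positivity) h3
    refine ⟨p0, ?_⟩
    have a1 := hwin x (hA' x hx x h1 (by simpa using h2)) y (hA' x hx y hy h6)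
    set K3 := K1 * (K0 * 14 ^ (i + 1))
    have a2 : c * ρ x ^ (i + 1) * w ^ i ≤ K3 * s ^ i * (2 * ρ x) := by
      calc _ ≤ K3 * s ^ i * (2 * r x) * w ^ i := by
            refine mul_le_mul_of_nonneg_right (h7.trans (a1.trans ?_)) hu.le
            exact mul_le_mul_of_nonneg_left h6.le (by positivity)
        _ = K3 * s ^ i * (2 * (w ^ i * r x)) := by ring
        _ ≤ _ := by gcongr
    have a3 : (ρ x * w) ^ i ≤ (K2 * s) ^ i := by
      have b1 : (ρ x * w) ^ i ≤ 2 * K3 / c * s ^ i := by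
        rw [div_mul_eq_mul_div, le_div_iff₀ hc, mul_pow]
        refine le_of_mul_le_mul_right ?_ p0
        calc _ = c * ρ x ^ (i + 1) * w ^ i := by ring
          _ ≤ _ := a2
          _ = _ := by ring
      refine b1.trans ?_
      rw [mul_pow]
      gcongr
      exact le_trans (by linarith) (le_self_pow₀ hK2p hi)
    rw [hR, le_div_iff₀ (by positivity)]
    exact le_of_pow_le_pow_left₀ hi (by positivity) a3
  have hcov : E ∩ A' ⊆ ⋃ l : ℕ, E ∩ {x | x ∈ A' ∧ R * (1 / 2) ^ (l + 1) < ρ x ∧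
      ρ x ≤ R * (1 / 2) ^ l} := by
    rintro x ⟨hx, hx'⟩
    obtain ⟨h1, h2⟩ := hρ x hx'
    obtain ⟨l, h3, h4⟩ := exists_nat_pow_near_of_lt_one (x := ρ x / R) (y := 1 / 2)
      (by positivity) ((div_le_one hR0).2 h2) (by norm_num) (by norm_num)
    rw [lt_div_iff₀ hR0] at h3
    rw [div_le_iff₀ hR0] at h4
    exact mem_iUnion.2 ⟨l, hx, hx', by linarith, by linarith⟩
  refine (measure_mono hcov).trans ((measure_iUnion_le _).trans ?_)
  calc _ ≤ ∑' l : ℕ, ENNReal.ofReal (N * (κ * (R / w ^ i)) * (1 / 2) ^ l) := by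
        refine ENNReal.tsum_le_tsum fun l => ?_
        set H := R * (1 / 2) ^ l with hH
        have hH0 : 0 < H := by positivity
        refine (hN g E _ a b (H ^ (i + 1)) (H / w ^ i) (κ * (H / w ^ i)) (by positivity)
          (by positivity) (by positivity) (hcont.mono hsub) hzero ?_).trans
          (le_of_eq (by congr 1; rw [hH]; ring))
        rintro x ⟨hx, h8, h9⟩
        obtain ⟨h1, h2, h3, h4, h5, ⟨y, hy, h6, h7⟩, h10⟩ := hA x hx.1
        have p0 := (hρ x hx).1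
        have b1 : r x ≤ H / w ^ i := by rw [le_div_iff₀ hu]; linarith
        have b2 : H / 2 < ρ x := by rw [hH]; rw [pow_succ] at h8; linarith
        have b3 : H / w ^ i < 4 * r x := by rw [div_lt_iff₀ hu]; linarith
        refine ⟨hA' x hx x h1 (by simpa using h2), h5.trans (by gcongr), ⟨y, hA' x hx y hy h6,
          by linarith, le_trans ?_ h7⟩, le_trans (measure_mono ?_) (h10.trans ?_)⟩
        · calc _ = c * (H / 2) ^ (i + 1) := by rw [div_pow]; ring
            _ ≤ _ := by gcongr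
        · exact inter_subset_inter_right _ (closedBall_subset_ball (by linarith))
        · exact ENNReal.ofReal_le_ofReal (by gcongr)
    _ = _ := by
        rw [← ENNReal.ofReal_tsum_of_nonneg (fun l => by positivity)
          (summable_geometric_two.mul_left _), tsum_mul_left, tsum_geometric_two, hR]
        congr 1
        field_simp
        ring

end Pool.Agent.H286Z.Roots
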