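import Pool.Agent.H286Z.Roots.Main

set_option autoImplicit false

namespace Pool.Agent.H286Z.Roots
open Set Polynomial Metric MeasureTheory Filter Topology

lemma extend_fun (m : ℕ) {α β B : ℝ} (hab : α < β) {f : ℝ → ℂ} (hf : ContDiffOn ℝ m f (Icc α β))
    (h1 : ∀ k ≤ m, ∀ t ∈ Icc α β, ‖iteratedDerivWithin k f (Icc α β) t‖ ≤ B)
    (h2 : ∀ s ∈ Icc α β, ∀ t ∈ Icc α β,
      ‖iteratedDerivWithin m f (Icc α β) s - iteratedDerivWithin m f (Icc α β) t‖ ≤ B * |s - t|) :
    ∃ g : ℝ → ℂ, EqOn g f (Icc α β) ∧ Top (m + 1) univ g B ∧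
      ∀ t ∈ Icc α (β + 1), ‖g t‖ ≤ (m + 1) * B := by
  have hβ : β ∈ Icc α β := right_mem_Icc.2 hab.le
  have hB : 0 ≤ B := (norm_nonneg _).trans (h1 0 (Nat.zero_le _) β hβ)
  have hu := uniqueDiffOn_Icc hab
  have key : ∀ i k, k + i = m → ∃ g : ℝ → ℂ, Continuous g ∧
      EqOn g (iteratedDerivWithin k f (Icc α β)) (Icc α β) ∧ Top (i + 1) univ g B ∧
      ∀ t ∈ Icc β (β + 1), ‖g t‖ ≤ (i + 1) * B := by
    intro i
    induction i with
    | zero =>
      intro k hk
      obtain rfl : k = m := hk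
      have hl : ∀ x y : ℝ, ‖iteratedDerivWithin k f (Icc α β) (projIcc α β hab.le y) -
          iteratedDerivWithin k f (Icc α β) (projIcc α β hab.le x)‖ ≤ B * |y - x| := fun x y =>
        (h2 _ (projIcc α β hab.le y).2 _ (projIcc α β hab.le x).2).trans
          (mul_le_mul_of_nonneg_left (abs_projIcc_sub_projIcc hab.le) hB)
      refine ⟨fun t => iteratedDerivWithin k f (Icc α β) (projIcc α β hab.le t), ?_,
        fun t ht => by simp only [projIcc_of_mem hab.le ht], top_one_of_lip fun x _ y _ => hl x y,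
        fun t _ => by simpa using h1 k le_rfl _ (projIcc α β hab.le t).2⟩
      refine (LipschitzWith.of_dist_le_mul (K := ⟨B, hB⟩) fun x y => ?_).continuous
      rw [dist_eq_norm]; exact hl y x
    | succ i ih =>
      intro k hk
      obtain ⟨g, g1, g2, g3, g4⟩ := ih (k + 1) (by omega)
      have hd : ∀ t, HasDerivAt (fun t => iteratedDerivWithin k f (Icc α β) β + ∫ x in β..t, g x)
          (g t) t := fun t => (g1.integral_hasStrictDerivAt β t).hasDerivAt.const_add _
      refine ⟨_, continuous_iff_continuousAt.2 fun t => (hd t).continuousAt, fun t ht => ?_,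
        Top.of_deriv hB hd g1 g3, fun t ht => ?_⟩
      · have := intervalIntegral.integral_eq_sub_of_hasDerivAt_of_le (f' := g) ht.2
          ((hf.continuousOn_iteratedDerivWithin (m := k) (by exact_mod_cast (by omega)) hu).mono
            (Icc_subset_Icc_left ht.1)) (fun x hx => by
            have hx' : Icc α β ∈ 𝓝 x := Icc_mem_nhds (ht.1.trans_lt hx.1) hx.2
            have hx2 := mem_of_mem_nhds hx'
            rw [g2 hx2, iteratedDerivWithin_succ]
            exact (hf.differentiableOn_iteratedDerivWithin (m := k) (by exact_mod_cast (by omega))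
              hu x hx2).hasDerivWithinAt.hasDerivAt hx') (g1.intervalIntegrable _ _)
        simp only
        rw [intervalIntegral.integral_symm, this]; ring
      · have a1 := intervalIntegral.norm_integral_le_of_norm_le_const (a := β) (b := t)
          (C := (i + 1) * B) (f := g) fun x hx => by
            rw [uIoc_of_le ht.1] at hx
            exact g4 x ⟨hx.1.le, hx.2.trans ht.2⟩
        have a2 : |t - β| ≤ 1 := by rw [abs_le]; constructor <;> linarith [ht.1, ht.2]
        have a3 : (i + 1) * B * |t - β| ≤ (i + 1) * B := mul_le_of_le_one_right (by positivity) a2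
        refine (norm_add_le _ _).trans ?_
        push_cast
        linarith [h1 k (by omega) β hβ]
  obtain ⟨g, _, g2, g3, g4⟩ := key m 0 (by omega)
  refine ⟨g, by simpa using g2, g3, fun t ht => ?_⟩
  by_cases h : t ≤ β
  · rw [g2 ⟨ht.1, h⟩]
    exact (h1 0 (Nat.zero_le _) t ⟨ht.1, h⟩).trans
      (le_mul_of_one_le_left hB (by linarith [(Nat.cast_nonneg m : (0 : ℝ) ≤ m)]))
  · exact g4 t ⟨(not_le.1 h).le, ht.2⟩

lemma unit_bound (n : ℕ) {p : ℝ} (hp : 0 < p) (hpn : p * n ≤ n + 1) : ∃ K : ℝ, 0 ≤ K ∧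
    ∀ (g : ℕ → ℝ → ℂ) (x s : ℝ), 0 < s → (∀ j ∈ Finset.Icc 1 (n + 1), Top (n + 1) univ (g j) 1 ∧
      ∀ t ∈ Ioo x (x + 1), ‖g j t‖ ≤ n + 1) →
    volume (Es (fun y => X ^ (n + 1) + ∑ j ∈ Finset.Icc 1 (n + 1), monomial (n + 1 - j) (g j y)) s
      ∩ Ioo x (x + 1)) ≤ ENNReal.ofReal (K / s ^ p) := by
  obtain ⟨K1, hK1, hlk⟩ := lk (V := ℂ) (n + 1) (θ := 1) one_pos
  obtain ⟨K, hK, hW⟩ := weak_type n p hp hpn
    (1 + (Finset.Icc 1 (n + 1)).card * (1 * (K1 * (n + 1)))) (by positivity)
  refine ⟨K, hK, fun g x s hs hg => ?_⟩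
  rw [vol_affine _ x one_pos, ENNReal.ofReal_one, one_mul]
  have hS : ∀ q : ℂ[X], Sc (n + 1) 1 q = q := fun q => by simp [Sc_apply]
  refine le_trans (measure_mono ?_) (hW (fun y => X ^ (n + 1) +
    ∑ j ∈ Finset.Icc 1 (n + 1), monomial (n + 1 - j) (g j (x + 1 * y))) s hs (fun y _ => ?_) ?_)
  · rintro τ ⟨h1, h2, h3⟩
    exact ⟨by simpa only [hS, mul_one, div_one] using Es_affine (n + 1) one_pos one_pos h1,
      by linarith, by linarith⟩
  · have hd : (∑ j ∈ Finset.Icc 1 (n + 1), monomial (n + 1 - j) (g j (x + 1 * y))).degree <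
        ((n + 1 : ℕ) : WithBot ℕ) := by
      refine (degree_sum_le _ _).trans_lt ((Finset.sup_lt_iff (by simp)).2 fun j hj => ?_)
      have := Finset.mem_Icc.1 hj
      exact (degree_monomial_le _ _).trans_lt (by exact_mod_cast (by omega))
    refine ⟨monic_X_pow_add hd, ?_⟩
    rw [natDegree_add_eq_left_of_degree_lt (by rwa [degree_X_pow]), natDegree_X_pow]
  · refine (cls_const ?_).add (cls_sum _ (by positivity) fun j hj => ?_)
    · rw [← monomial_one_right_eq_X_pow, norm_monomial, norm_one]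
    · refine Cls.map ((monomial (n + 1 - j) : ℂ →ₗ[ℂ] ℂ[X]).restrictScalars ℝ) zero_le_one
        (fun v => by simp [norm_monomial]) (hlk _ _ 0 (by positivity)
          (((hg j hj).1.affine x one_pos).mono (fun _ _ => trivial) (by simp)) le_rfl (by norm_num)
          fun y hy => (hg j hj).2 _ ⟨by linarith [hy.1], by linarith [hy.2]⟩)

theorem level_sets (n : ℕ) {p : ℝ} (hp : 0 < p) (hpn : p * n ≤ n + 1) : ∃ K : ℝ, 0 ≤ K ∧
    ∀ (α β : ℝ), α < β → ∀ (a : ℕ → ℝ → ℂ) (A : ℝ), 0 ≤ A →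
    (∀ j ∈ Finset.Icc 1 (n + 1), ContDiffOn ℝ n (a j) (Icc α β) ∧
      (∀ k ≤ n, ∀ t ∈ Icc α β, ‖iteratedDerivWithin k (a j) (Icc α β) t‖ ≤ A ^ j) ∧
      ∀ s ∈ Icc α β, ∀ t ∈ Icc α β, ‖iteratedDerivWithin n (a j) (Icc α β) s -
        iteratedDerivWithin n (a j) (Icc α β) t‖ ≤ A ^ j * |s - t|) →
    ∀ l : ℝ → ℂ, ContinuousOn l (Ioo α β) →
    (∀ t ∈ Ioo α β, l t ^ (n + 1) + ∑ j ∈ Finset.Icc 1 (n + 1), a j t * l t ^ (n + 1 - j) = 0) →
    ∀ s : ℝ, 0 < s → volume {t | t ∈ Ioo α β ∧ s < ‖deriv l t‖} ≤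
      ENNReal.ofReal (K * max 1 (β - α) * (A / s) ^ p) := by
  obtain ⟨K, hK, hU⟩ := unit_bound n hp hpn
  refine ⟨2 * K, by positivity, fun α β hab a A hA ha l hl hroot s hs => ?_⟩
  rcases hA.eq_or_lt with rfl | hA
  · have : {t | t ∈ Ioo α β ∧ s < ‖deriv l t‖} = ∅ := by
      refine eq_empty_of_forall_notMem fun t ⟨ht, h⟩ => ?_
      have e : l =ᶠ[𝓝 t] fun _ => 0 := by
        filter_upwards [isOpen_Ioo.mem_nhds ht] with u hu
        have := hroot u hu
        rw [Finset.sum_eq_zero, add_zero] at this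
        · exact pow_eq_zero_iff (by omega) |>.1 this
        · intro j hj
          have h0 := (ha j hj).2.1 0 (Nat.zero_le _) u (Ioo_subset_Icc_self hu)
          rw [zero_pow (by have := Finset.mem_Icc.1 hj; omega), iteratedDerivWithin_zero,
            norm_le_zero_iff] at h0
          rw [h0, zero_mul]
      rw [e.deriv_eq] at h
      simp at h; linarith
    rw [this, measure_empty]; exact zero_le
  choose! g g1 g2 g3 using fun j hj => extend_fun n hab (ha j hj).1 (ha j hj).2.1 (ha j hj).2.2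
  set P : ℝ → ℂ[X] := fun y => X ^ (n + 1) +
    ∑ j ∈ Finset.Icc 1 (n + 1), monomial (n + 1 - j) ((A ^ j)⁻¹ • g j y)
  have hA' : (A : ℂ) ≠ 0 := by exact_mod_cast hA.ne'
  have hsub : {t | t ∈ Ioo α β ∧ s < ‖deriv l t‖} ⊆ range (fun k : ℕ => α + k) ∪
      ⋃ k ∈ Finset.range ⌈β - α⌉₊, Es P (s / A) ∩ Ioo (α + k) (α + k + 1) := by
    rintro t ⟨ht, h⟩
    by_cases h0 : t ∈ range (fun k : ℕ => α + k)
    · exact Or.inl h0
    have b1 := Nat.floor_le (a := t - α) (by linarith [ht.1])
    have b2 := Nat.lt_floor_add_one (t - α)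
    refine Or.inr (mem_biUnion (x := ⌊t - α⌋₊) (Finset.mem_range.2 (Nat.lt_ceil.2
      (by linarith [ht.2]))) ⟨⟨fun u => l u / A, ?_, ?_, ?_⟩,
      lt_of_le_of_ne (by linarith) fun e => h0 ⟨_, e⟩, by linarith⟩)
    · filter_upwards [isOpen_Ioo.mem_nhds ht] with u hu
      have := congrArg (· / (A : ℂ) ^ (n + 1)) (hroot u hu)
      simp only [add_div, Finset.sum_div, zero_div] at this
      simp only [P, IsRoot.def, eval_add, eval_pow, eval_X, eval_finset_sum, eval_monomial]
      rw [← this, div_pow]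
      congr 1
      refine Finset.sum_congr rfl fun j hj => ?_
      have e : (A : ℂ) ^ (n + 1) = A ^ j * A ^ (n + 1 - j) := by
        rw [← pow_add]; congr 1; have := Finset.mem_Icc.1 hj; omega
      rw [g1 j hj (Ioo_subset_Icc_self hu), e, div_pow, Complex.real_smul]
      push_cast
      field_simp
    · exact (hl.continuousAt (isOpen_Ioo.mem_nhds ht)).div_const _
    · have hd : DifferentiableAt ℝ l t := differentiableAt_of_deriv_ne_zero fun e => by
        rw [e, norm_zero] at h; linarith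
      have := (hasDerivAt_iff_tendsto_slope.1 hd.hasDerivAt).norm.eventually (lt_mem_nhds h)
      refine (this.and eventually_mem_nhdsWithin).frequently.mono fun u ⟨hu, hu'⟩ => ?_
      have c1 : 0 < |u - t| := abs_pos.2 (sub_ne_zero.2 hu')
      rw [slope_def_module, norm_smul, norm_inv, Real.norm_eq_abs, lt_inv_mul_iff₀ c1] at hu
      rw [← sub_div, norm_div, Complex.norm_real, Real.norm_of_nonneg hA.le, div_mul_eq_mul_div,
        div_lt_div_iff_of_pos_right hA]
      linarith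
  refine (measure_mono hsub).trans ((measure_union_le _ _).trans ?_)
  rw [(countable_range _).measure_zero, zero_add]
  refine (measure_biUnion_finset_le _ _).trans ((Finset.sum_le_card_nsmul _ _
    (ENNReal.ofReal (K / (s / A) ^ p)) fun k hk => ?_).trans ?_)
  · refine hU (fun j y => (A ^ j)⁻¹ • g j y) _ _ (by positivity) fun j hj => ⟨?_, fun t ht => ?_⟩
    · refine ((g2 j hj).smul _).mono le_rfl (le_of_eq ?_)
      rw [abs_of_pos (by positivity), inv_mul_cancel₀ (by positivity)]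
    · have := Nat.lt_ceil.1 (Finset.mem_range.1 hk)
      have h0 : (0 : ℝ) ≤ k := by positivity
      rw [norm_smul, norm_inv, Real.norm_of_nonneg (by positivity), inv_mul_le_iff₀ (by positivity),
        mul_comm]
      exact g3 j hj t ⟨by linarith [ht.1], by linarith [ht.2]⟩
  · rw [Finset.card_range, nsmul_eq_mul, ← ENNReal.ofReal_natCast,
      ← ENNReal.ofReal_mul (by positivity)]
    refine ENNReal.ofReal_le_ofReal ?_
    have := (Nat.ceil_lt_add_one (a := β - α) (by linarith)).le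
    have h2 : (⌈β - α⌉₊ : ℝ) ≤ 2 * max 1 (β - α) := by
      linarith [le_max_left 1 (β - α), le_max_right 1 (β - α)]
    rw [div_eq_mul_inv K, ← Real.inv_rpow (by positivity), inv_div]
    calc _ ≤ 2 * max 1 (β - α) * (K * (A / s) ^ p) := by gcongr
      _ = _ := by ring

end Pool.Agent.H286Z.Roots
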