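import Pool.Agent.H286Z.Roots.Split
import Pool.Agent.H286Z.Roots.Cov

set_option autoImplicit false

namespace Pool.Agent.H286Z.Roots
open Set Polynomial Metric MeasureTheory Filter Topology

/-- points where some local continuous root has difference quotients larger than `s` -/
def Es (P : ℝ → ℂ[X]) (s : ℝ) : Set ℝ := {t | ∃ l : ℝ → ℂ, (∀ᶠ u in 𝓝 t, (P u).IsRoot (l u)) ∧
  ContinuousAt l t ∧ ∃ᶠ u in 𝓝[≠] t, s * |u - t| < ‖l u - l t‖}

/-- the weak type estimate in degree `n` with exponent `p` -/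
def WT (n : ℕ) (p : ℝ) : Prop := ∀ M : ℝ, 0 ≤ M → ∃ K : ℝ, 0 ≤ K ∧ ∀ (P : ℝ → ℂ[X]) (s : ℝ),
  0 < s → (∀ y ∈ Ioo (0 : ℝ) 1, (P y).Monic ∧ (P y).natDegree = n) → Cls n (Ioo 0 1) P M →
  volume (Es P s ∩ Ioo 0 1) ≤ ENNReal.ofReal (K / s ^ p)

/-- rescaling of the roots -/
noncomputable def Sc (n : ℕ) (ρ : ℝ) : ℂ[X] →ₗ[ℝ] ℂ[X] :=
  (ρ ^ n)⁻¹ • ((aeval (C (ρ : ℂ) * X) : ℂ[X] →ₐ[ℂ] ℂ[X]).toLinearMap.restrictScalars ℝ)

lemma Sc_apply (n : ℕ) (ρ : ℝ) (p : ℂ[X]) : Sc n ρ p = (ρ ^ n)⁻¹ • p.comp (C (ρ : ℂ) * X) := by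
  simp [Sc, comp_eq_aeval]

lemma Sc_coeff (n : ℕ) {ρ : ℝ} (h : 0 < ρ) (p : ℂ[X]) (k : ℕ) :
    ‖(Sc n ρ p).coeff k‖ = (ρ ^ n)⁻¹ * (‖p.coeff k‖ * ρ ^ k) := by
  rw [Sc_apply, coeff_smul, comp_C_mul_X_coeff, norm_smul, norm_mul, norm_pow, Complex.norm_real,
    Real.norm_of_nonneg h.le, Real.norm_of_nonneg (by positivity)]

lemma Sc_norm (n : ℕ) {ρ : ℝ} (h : 0 < ρ) (h1 : ρ ≤ 1) (p : ℂ[X]) :
    ‖Sc n ρ p‖ ≤ (ρ ^ n)⁻¹ * ‖p‖ := by
  rw [norm_eq _ (s := p.support) (fun k hk => by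
    rw [mem_support_iff] at hk ⊢
    intro e
    have := Sc_coeff n h p k
    rw [e] at this
    exact hk (by simpa using this)), norm_def, Finset.mul_sum]
  refine Finset.sum_le_sum fun k _ => ?_
  rw [Sc_coeff n h]
  gcongr
  exact mul_le_of_le_one_right (norm_nonneg _) (pow_le_one₀ h.le h1)

lemma Sc_prod {n : ℕ} {ρ : ℝ} (h : 0 < ρ) (z : Fin n → ℂ) :
    Sc n ρ (∏ i, (X - C (z i))) = ∏ i, (X - C (z i / ρ)) := by
  have h' : (ρ : ℂ) ≠ 0 := by exact_mod_cast h.ne'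
  have e : ∀ i, (X - C (z i)).comp (C (ρ : ℂ) * X) = C (ρ : ℂ) * (X - C (z i / ρ)) := fun i => by
    rw [sub_comp, X_comp, C_comp, mul_sub, ← C_mul, mul_div_cancel₀ _ h']
  rw [Sc_apply, Polynomial.prod_comp]
  simp only [e, Finset.prod_mul_distrib, Finset.prod_const, Finset.card_univ, Fintype.card_fin]
  rw [← C_pow, ← smul_eq_C_mul, ← Complex.coe_smul, smul_smul]
  simp [h']

lemma Es_affine {P : ℝ → ℂ[X]} {s a L ρ τ : ℝ} (n : ℕ) (hL : 0 < L) (hρ : 0 < ρ)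
    (h : a + L * τ ∈ Es P s) : τ ∈ Es (fun y => Sc n ρ (P (a + L * y))) (s * L / ρ) := by
  obtain ⟨l, h1, h2, h3⟩ := h
  have hc : Continuous fun y : ℝ => a + L * y := by fun_prop
  have h' : (ρ : ℂ) ≠ 0 := by exact_mod_cast hρ.ne'
  refine ⟨fun y => l (a + L * y) / ρ, ?_, ?_, ?_⟩
  · refine (hc.continuousAt.eventually h1).mono fun u hu => ?_
    beta_reduce
    rw [IsRoot.def, Sc_apply, eval_smul, eval_comp, eval_mul, eval_C, eval_X, mul_div_cancel₀ _ h',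
      hu.eq_zero, smul_zero]
  · exact (ContinuousAt.comp (f := fun y : ℝ => a + L * y) h2 hc.continuousAt).div_const _
  · have ht : Tendsto (fun u => (u - a) / L) (𝓝[≠] (a + L * τ)) (𝓝[≠] τ) := by
      refine tendsto_nhdsWithin_iff.2 ⟨tendsto_nhdsWithin_of_tendsto_nhds ?_, ?_⟩
      · have : Continuous fun u : ℝ => (u - a) / L := by fun_prop
        have := this.tendsto (a + L * τ)
        rwa [add_sub_cancel_left, mul_div_cancel_left₀ _ hL.ne'] at this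
      · refine eventually_nhdsWithin_of_forall fun u hu e => hu ?_
        rw [mem_singleton_iff] at e ⊢
        rw [← e]; field_simp; ring
    refine ht.frequently (h3.mono fun u hu => ?_)
    have e : a + L * ((u - a) / L) = u := by field_simp; ring
    have e2 : (u - a) / L - τ = (u - (a + L * τ)) / L := by field_simp; ring
    simp only [e, e2, ← sub_div, norm_div, Complex.norm_real, Real.norm_of_nonneg hρ.le, abs_div,
      abs_of_pos hL]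
    rw [lt_div_iff₀ hρ]
    refine lt_of_eq_of_lt ?_ hu
    field_simp

lemma Es_split {G Q R : ℝ → ℂ[X]} {S : Set ℝ} {s τ δ : ℝ} (hS : S ∈ 𝓝 τ) (hδ : 0 < δ)
    (hG : ∀ y ∈ S, G y = Q y * R y)
    (hsep : ∀ x ∈ S, ∀ y ∈ S, ∀ u v, (Q x).IsRoot u → (R y).IsRoot v → δ ≤ ‖u - v‖)
    (h : τ ∈ Es G s) : τ ∈ Es Q s ∨ τ ∈ Es R s := by
  obtain ⟨l, h1, h2, h3⟩ := h
  have hτ := mem_of_mem_nhds hS
  have a1 : ∀ᶠ u in 𝓝 τ, u ∈ S ∧ ‖l u - l τ‖ < δ ∧ ((Q u).IsRoot (l u) ∨ (R u).IsRoot (l u)) := by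
    filter_upwards [hS, h1, h2.eventually (ball_mem_nhds _ hδ)] with u b1 b2 b3
    rw [hG u b1, root_mul] at b2
    exact ⟨b1, by rwa [← dist_eq_norm], b2⟩
  rcases a1.self_of_nhds.2.2 with h4 | h4
  · refine Or.inl ⟨l, a1.mono fun u hu => hu.2.2.resolve_right fun b => ?_, h2, h3⟩
    have := hsep τ hτ u hu.1 _ _ h4 b
    rw [norm_sub_rev] at this
    linarith [hu.2.1]
  · refine Or.inr ⟨l, a1.mono fun u hu => hu.2.2.resolve_left fun b => ?_, h2, h3⟩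
    linarith [hsep u hu.1 τ hτ _ _ b h4, hu.2.1]

lemma vol_affine (X : Set ℝ) (a : ℝ) {L : ℝ} (hL : 0 < L) :
    volume X = ENNReal.ofReal L * volume {τ | a + L * τ ∈ X} := by
  have : {τ | a + L * τ ∈ X} = (fun τ => L * τ) ⁻¹' ((fun τ => a + τ) ⁻¹' X) := rfl
  rw [this, Real.volume_preimage_mul_left hL.ne', measure_preimage_add, ← mul_assoc,
    ← ENNReal.ofReal_mul hL.le, abs_of_pos (inv_pos.2 hL), mul_inv_cancel₀ hL.ne']
  simp

/-- the splitting step on the unit interval -/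
lemma near_split (n : ℕ) {q R0 : ℝ} (hR0 : 1 ≤ R0) (ih : ∀ m, 1 ≤ m → m < n → WT m q) :
    ∃ c K : ℝ, 0 < c ∧ 0 ≤ K ∧ ∀ (G : ℝ → ℂ[X]) (z : Fin n → ℂ) (s : ℝ), 0 < s →
    (∀ y ∈ Ioo (0 : ℝ) 1, (G y).Monic ∧ (G y).natDegree = n) → ∑ i, z i = 0 →
    (∃ i, 1 ≤ ‖z i‖) → (∀ i, ‖z i‖ ≤ R0) →
    Cls n (Ioo 0 1) (fun y => G y - ∏ i, (X - C (z i))) c →
    volume (Es G s ∩ Ioo 0 1) ≤ ENNReal.ofReal (K / s ^ q) := by
  classical
  rcases Nat.eq_zero_or_pos n with rfl | hn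
  · exact ⟨1, 0, one_pos, le_rfl, fun _ _ _ _ _ _ h => by obtain ⟨i, _⟩ := h; exact i.elim0⟩
  have hn' : (1 : ℝ) ≤ n := by exact_mod_cast hn
  set M1 := 1 + (1 + R0) ^ n with hM1
  have hM0 : 0 ≤ M1 := by positivity
  obtain ⟨c, hc, hperm⟩ := perm_close n (M1 + 1 + R0) (ε := 1 / (4 * n)) (by positivity)
  obtain ⟨K, hK, hsp⟩ := split_cls n n (R0 := M1 + 1) (δ := 1 / (2 * n)) (M := M1)
    (by positivity) (by positivity) (by rw [div_le_one (by positivity)]; linarith) hM0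
  choose! K' hK' hW using fun m h1 h2 => ih m h1 h2 K hK
  set K'' := ∑ m ∈ Finset.Ico 1 n, K' m
  have hK'' : ∀ m, 1 ≤ m → m < n → K' m ≤ K'' := fun m h1 h2 =>
    Finset.single_le_sum (fun m hm => hK' m (Finset.mem_Ico.1 hm).1 (Finset.mem_Ico.1 hm).2)
      (Finset.mem_Ico.2 ⟨h1, h2⟩)
  have hK0 : 0 ≤ K'' :=
    Finset.sum_nonneg fun m hm => hK' m (Finset.mem_Ico.1 hm).1 (Finset.mem_Ico.1 hm).2
  refine ⟨min 1 (c / 2), 2 * K'', by positivity, by positivity,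
    fun G z s hs hG hz ⟨i0, hi0⟩ hzR hcls => ?_⟩
  obtain ⟨A, hA, hA', hgap⟩ := gap z hz i0 hi0
  have hG1 : Cls n (Ioo 0 1) G M1 := by
    have := hcls.add (cls_const (norm_prod_le' Finset.univ z (by linarith) fun i _ => hzR i))
    refine (this.mono le_rfl le_rfl ?_).congr fun y _ => by simp
    simp [hM1]
  have key : ∀ y ∈ Ioo (0 : ℝ) 1, ∃ w : Fin n → ℂ, G y = ∏ i, (X - C (w i)) ∧
      (∀ i, ‖w i‖ ≤ M1 + 1) ∧ ∀ i, ‖z i - w i‖ < 1 / (4 * n) := by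
    intro y hy
    obtain ⟨w, hw⟩ := exists_roots (hG y hy).1 (hG y hy).2
    have hb : ∀ i, ‖w i‖ ≤ M1 + 1 := fun i => root_le (hG y hy).1 (hG y hy).2 (by
      rw [hw, IsRoot.def, eval_prod]
      exact Finset.prod_eq_zero (Finset.mem_univ i) (by simp)) (hG1.bound hy)
    obtain ⟨σ, hσ⟩ := hperm z w (fun i => by linarith [hzR i]) (fun i => by linarith [hb i]) (by
      rw [← hw, norm_sub_rev]
      linarith [hcls.bound hy, min_le_right 1 (c / 2)])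
    exact ⟨fun i => w (σ i), by rw [hw, Equiv.prod_comp σ (fun i => X - C (w i))],
      fun i => hb _, hσ⟩
  choose! w hw1 hw2 hw3 using key
  have hsep : ∀ x ∈ Ioo (0 : ℝ) 1, ∀ y ∈ Ioo (0 : ℝ) 1, ∀ i ∈ A, ∀ k ∈ Aᶜ,
      1 / (2 * n : ℝ) ≤ ‖w y k - w x i‖ := by
    intro x hx y hy i hi k hk
    have a1 := hgap i hi k hk
    have a2 := hw3 x hx i
    have a3 := hw3 y hy k
    have a4 : z i - z k = (z i - w x i) - (w y k - w x i) - (z k - w y k) := by ring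
    have a5 := norm_sub_le ((z i - w x i) - (w y k - w x i)) (z k - w y k)
    have a6 := norm_sub_le (z i - w x i) (w y k - w x i)
    rw [← a4] at a5
    have : 1 / (n : ℝ) = 1 / (2 * n) + 1 / (4 * n) + 1 / (4 * n) := by field_simp; ring
    linarith
  have hfac : ∀ y ∈ Ioo (0 : ℝ) 1,
      G y = (∏ i ∈ A, (X - C (w y i))) * ∏ i ∈ Aᶜ, (X - C (w y i)) := fun y hy => by
    rw [hw1 y hy, Finset.prod_mul_prod_compl]
  have c1 := hsp _ w A Aᶜ hw2 hsep (hG1.congr fun y hy => (hfac y hy).symm)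
  have c2 := hsp _ w Aᶜ A hw2 (fun x hx y hy i hi k hk => by
    rw [norm_sub_rev]; exact hsep y hy x hx k hk i hi)
    (hG1.congr fun y hy => by rw [hfac y hy, mul_comm])
  have hcard : A.card + Aᶜ.card = n := by rw [Finset.card_add_card_compl, Fintype.card_fin]
  have p1 := Finset.card_pos.2 hA
  have p2 := Finset.card_pos.2 hA'
  have hB : ∀ B : Finset (Fin n), 1 ≤ B.card → B.card < n →
      Cls n (Ioo 0 1) (fun y => ∏ i ∈ B, (X - C (w y i))) K →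
      volume (Es (fun y => ∏ i ∈ B, (X - C (w y i))) s ∩ Ioo 0 1) ≤
        ENNReal.ofReal (K'' / s ^ q) := fun B h1 h2 h3 =>
    (hW _ h1 h2 _ s hs (fun y _ => ⟨monic_prod_X_sub_C _ _,
      natDegree_finsetProd_X_sub_C_eq_card _ _⟩) (h3.mono h2.le le_rfl le_rfl)).trans
      (ENNReal.ofReal_le_ofReal (by gcongr; exact hK'' _ h1 h2))
  have hsub : Es G s ∩ Ioo 0 1 ⊆ Es (fun y => ∏ i ∈ A, (X - C (w y i))) s ∩ Ioo 0 1 ∪
      Es (fun y => ∏ i ∈ Aᶜ, (X - C (w y i))) s ∩ Ioo 0 1 := by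
    rintro τ ⟨h1, h2⟩
    rw [← union_inter_distrib_right]
    refine ⟨Es_split (isOpen_Ioo.mem_nhds h2) (δ := 1 / (2 * n)) (by positivity) hfac ?_ h1, h2⟩
    intro x hx y hy u v hu hv
    simp only [IsRoot.def, eval_prod, Finset.prod_eq_zero_iff, eval_sub, eval_X, eval_C,
      sub_eq_zero] at hu hv
    obtain ⟨i, hi, rfl⟩ := hu
    obtain ⟨k, hk, rfl⟩ := hv
    rw [norm_sub_rev]
    exact hsep x hx y hy i hi k hk
  refine (measure_mono hsub).trans ((measure_union_le _ _).trans ?_)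
  refine (add_le_add (hB A p1 (by omega) c2) (hB Aᶜ p2 (by omega) c1)).trans (le_of_eq ?_)
  rw [← ENNReal.ofReal_add (by positivity) (by positivity)]
  congr 1; ring

/-- the set where all roots vanish -/
lemma zero_part (n : ℕ) {M s : ℝ} (hM : 1 ≤ M) (hs : 2 * M ≤ s) {P : ℝ → ℂ[X]}
    (hP : ∀ y ∈ Ioo (0 : ℝ) 1, (P y).Monic ∧ (P y).natDegree = n + 1)
    (h : Top (n + 1) (Ioo 0 1) P M) :
    volume (Es P s ∩ {y | y ∈ Ioo (0 : ℝ) 1 ∧ P y = X ^ (n + 1)}) = 0 := by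
  set Z := {y | y ∈ Ioo (0 : ℝ) 1 ∧ P y = X ^ (n + 1)}
  refine measure_mono_null ?_
    ((countable_setOfPred_isolated_right_within (s := Z)).measure_zero volume)
  rintro t ⟨⟨l, h1, _, h3⟩, ht⟩
  refine ⟨ht, ?_⟩
  by_contra hne
  have hf : ∃ᶠ y in 𝓝 t, y ∈ Z ∩ Ioi t :=
    mem_closure_iff_frequently.1 (mem_closure_iff_nhdsWithin_neBot.2 ⟨hne⟩)
  have hl : l t = 0 := by
    have := h1.self_of_nhds
    rw [ht.2] at this
    simpa using this
  have a1 : ∀ᶠ u in 𝓝[≠] t, u ≠ t ∧ (P u).IsRoot (l u) ∧ u ∈ Ioo (0 : ℝ) 1 ∧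
      u ∈ ball t (1 / (2 * M)) :=
    eventually_mem_nhdsWithin.and (eventually_nhdsWithin_of_eventually_nhds
      (h1.and (Filter.Eventually.and (isOpen_Ioo.mem_nhds ht.1) (ball_mem_nhds _ (by positivity)))))
  obtain ⟨u, b1, b2, b3, b4, b5⟩ := (h3.and_eventually a1).exists
  have hd : 0 < |u - t| := abs_pos.2 (sub_ne_zero.2 b2)
  have hinf : (Z ∩ ball t |u - t|).Infinite := by
    refine Set.Infinite.of_accPt (x := t) (accPt_iff_frequently.2 ?_)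
    exact (hf.and_eventually (ball_mem_nhds t hd)).mono fun y hy => ⟨hy.1.2.ne', hy.1.1, hy.2⟩
  obtain ⟨T, hT, hT'⟩ := hinf.exists_subset_card_eq (n + 1)
  have c1 := (h.sub_const (X ^ (n + 1))).vanish T hT'.ge (u := u) (d := 2 * |u - t|)
    (fun x hx => by
      obtain ⟨d1, d2⟩ := hT hx
      rw [mem_ball, Real.dist_eq, abs_sub_comm] at d2
      exact ⟨d1.1, by simp [d1.2], by linarith [abs_sub_le u t x]⟩) (by linarith) (by positivity) b4
  rw [mem_ball, Real.dist_eq, lt_div_iff₀ (by positivity)] at b5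
  have c2 := root_small (hP u b4).1 (hP u b4).2 (by omega) b3 (d := M * (2 * |u - t|))
    (by positivity) (by linarith) (c1.trans (by
      rw [mul_pow M]; gcongr; exact le_self_pow₀ hM (by omega)))
  rw [hl, sub_zero] at b1
  nlinarith

end Pool.Agent.H286Z.Roots
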