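import Pool.Agent.H286Z.Roots.Loc

set_option autoImplicit false

namespace Pool.Agent.H286Z.Roots
open Set Polynomial Metric MeasureTheory Filter Topology

lemma local_bound (n : ℕ) {q M R0 : ℝ} (hq : 0 ≤ q) (hM : 1 ≤ M) (hR0 : 1 < R0)
    (ih : ∀ m, 1 ≤ m → m < n + 1 → WT m q) :
    ∃ c c1 K : ℝ, 0 < c ∧ 0 < c1 ∧ c1 ≤ 1 ∧ 0 ≤ K ∧ ∀ (P : ℝ → ℂ[X]) (z : Fin (n + 1) → ℂ)
    (s t r ρ : ℝ), 0 < s → (∀ y ∈ Ioo (0 : ℝ) 1, (P y).Monic ∧ (P y).natDegree = n + 1) →
    Top (n + 1) (Ioo 0 1) P M → t ∈ Ioo (0 : ℝ) 1 → P t = ∏ i, (X - C (z i)) → ∑ i, z i = 0 →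
    0 < ρ → ρ ≤ 1 → ‖z‖ = R0 * ρ → 0 < r → r ≤ c1 * ρ →
    (∀ y ∈ Ioo (0 : ℝ) 1, |y - t| < r → ‖Sc (n + 1) ρ (P y - P t)‖ ≤ c) →
    volume (Es P s ∩ Ioo 0 1 ∩ ball t (17 * r)) ≤
      ENNReal.ofReal (34 * min 1 (K * (ρ / (r * s)) ^ q) * r) := by
  obtain ⟨c0, K, hc0, hK, hsp⟩ := near_split (n + 1) hR0.le ih
  obtain ⟨K1, hK1, hlk⟩ := lk (V := ℂ[X]) (n + 1) (θ := 1 / 34) (by norm_num)
  set c := c0 / K1 with hc
  have hc' : 0 < c := by positivity
  refine ⟨c, min 1 (c / M) / 34, K, hc', by positivity, by linarith [min_le_left 1 (c / M)], hK,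
    fun P z s t r ρ hs hP hT ht hz hz0 hρ hρ1 hzρ hr hr1 hstop => ?_⟩
  set a := max 0 (t - 17 * r) with ha
  set b := min 1 (t + 17 * r) with hb
  set a1 := max 0 (t - r) with ha1
  set b1 := min 1 (t + r) with hb1
  have hm1 := min_le_left 1 (c / M)
  have hm0 : 0 < min 1 (c / M) := by positivity
  have hr2 : r ≤ 1 := by nlinarith
  have e1 : r ≤ b1 - a1 := by
    rw [ha1, hb1, max_def, min_def]
    split_ifs <;> linarith [ht.1, ht.2]
  have e2 : a ≤ a1 := max_le_max le_rfl (by linarith)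
  have e3 : b1 ≤ b := min_le_min le_rfl (by linarith)
  have hL2 : b - a ≤ 34 * r := by
    linarith [le_max_right 0 (t - 17 * r), min_le_right 1 (t + 17 * r)]
  set L := b - a with hL
  have hL0 : 0 < L := by linarith
  have hsub : Ioo a b ⊆ Ioo 0 1 := Ioo_subset_Ioo (le_max_left _ _) (min_le_left _ _)
  have haff : ∀ y ∈ Ioo (0 : ℝ) 1, a + L * y ∈ Ioo a b := fun y hy =>
    ⟨by nlinarith [hy.1], by nlinarith [hy.2]⟩
  have t1 := ((((hT.sub_const (P t)).affine a hL0).map (Sc (n + 1) ρ) (by positivity)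
    (Sc_norm _ hρ hρ1)).mono (S' := Ioo 0 1) (fun y hy => hsub (haff y hy)) (B' := c) (by
      have b1 : L / ρ ≤ min 1 (c / M) := by rw [div_le_iff₀ hρ]; linarith
      have b2 : (L / ρ) ^ (n + 1) ≤ c / M :=
        (pow_le_of_le_one (by positivity) (b1.trans hm1) (by omega)).trans
          (b1.trans (min_le_right _ _))
      rw [le_div_iff₀ (by linarith), div_pow] at b2
      refine le_trans (le_of_eq ?_) b2
      field_simp))
  have t2 := hlk _ c ((a1 - a) / L) hc'.le t1 (div_nonneg (by linarith) hL0.le) (by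
      have : (a1 - a) / L + r / L ≤ 1 := by rw [← add_div, div_le_one hL0]; linarith
      have : 1 / 34 ≤ r / L := by rw [le_div_iff₀ hL0]; linarith
      linarith) (fun y hy => by
      have b1 := (div_lt_iff₀ hL0).1 hy.1
      have b2 := (lt_div_iff₀ hL0).1 (sub_lt_iff_lt_add.2 hy.2)
      have : a + L * y ∈ Ioo 0 1 ∩ ball t r := by
        rw [inter_ball]; exact ⟨by linarith, by linarith⟩
      exact hstop _ this.1 this.2)
  have hρ' : (ρ : ℂ) ≠ 0 := by exact_mod_cast hρ.ne'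
  have t3 := hsp (fun y => Sc (n + 1) ρ (P (a + L * y))) (fun i => z i / ρ) (s * L / ρ)
    (by positivity) (fun y hy => by
      obtain ⟨w, hw⟩ := exists_roots (hP _ (hsub (haff y hy))).1 (hP _ (hsub (haff y hy))).2
      simp only [hw, Sc_prod hρ]
      exact ⟨monic_prod_X_sub_C _ _, by rw [natDegree_finsetProd_X_sub_C_eq_card]; simp⟩)
    (by rw [← Finset.sum_div, hz0, zero_div]) (by
      by_contra h
      push Not at h
      have : ‖z‖ ≤ ρ := (pi_norm_le_iff_of_nonneg hρ.le).2 fun i => by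
        have := (h i).le
        rwa [norm_div, Complex.norm_real, Real.norm_of_nonneg hρ.le, div_le_one hρ] at this
      nlinarith) (fun i => by
      rw [norm_div, Complex.norm_real, Real.norm_of_nonneg hρ.le, div_le_iff₀ hρ, ← hzρ]
      exact norm_le_pi_norm z i)
    ((t2.mono le_rfl le_rfl (le_of_eq (by rw [hc]; field_simp))).congr fun y _ => by
      simp only [map_sub, hz, Sc_prod hρ])
  have hset : Es P s ∩ Ioo 0 1 ∩ ball t (17 * r) = Es P s ∩ Ioo a b := by
    rw [inter_assoc, inter_ball]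
  rw [hset, vol_affine _ a hL0]
  have hin : {τ | a + L * τ ∈ Es P s ∩ Ioo a b} ⊆
      Es (fun y => Sc (n + 1) ρ (P (a + L * y))) (s * L / ρ) ∩ Ioo 0 1 := by
    rintro τ ⟨h1, h2, h3⟩
    exact ⟨Es_affine _ hL0 hρ h1, by nlinarith, by nlinarith⟩
  have t4 : volume {τ | a + L * τ ∈ Es P s ∩ Ioo a b} ≤
      ENNReal.ofReal (min 1 (K * (ρ / (r * s)) ^ q)) := by
    rw [ENNReal.ofReal_min]
    refine le_min ((measure_mono (hin.trans inter_subset_right)).trans (by simp))
      ((measure_mono hin).trans (t3.trans (ENNReal.ofReal_le_ofReal ?_)))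
    rw [div_eq_mul_inv, ← Real.inv_rpow (by positivity), inv_div]
    rw [mul_comm r s]
    gcongr
    linarith
  calc _ ≤ ENNReal.ofReal (34 * r) * ENNReal.ofReal (min 1 (K * (ρ / (r * s)) ^ q)) := by gcongr
    _ = _ := by rw [← ENNReal.ofReal_mul (by positivity)]; congr 1; ring

/-- real or imaginary part of a coefficient -/
noncomputable def part (k : ℕ) (b : Bool) : ℂ[X] →ₗ[ℝ] ℝ :=
  (if b then Complex.reLm else Complex.imLm) ∘ₗ ((lcoeff ℂ k).restrictScalars ℝ)

lemma part_le (k : ℕ) (b : Bool) (p : ℂ[X]) : |part k b p| ≤ ‖p.coeff k‖ := by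
  cases b
  · simpa [part] using Complex.abs_im_le_norm _
  · simpa [part] using Complex.abs_re_le_norm _

lemma part_ge (k : ℕ) (p : ℂ[X]) : ∃ b, ‖p.coeff k‖ ≤ 2 * |part k b p| := by
  have := Complex.norm_le_abs_re_add_abs_im (p.coeff k)
  rcases le_total |(p.coeff k).re| |(p.coeff k).im| with h | h
  · exact ⟨false, by simp only [part]; simp; linarith⟩
  · exact ⟨true, by simp only [part]; simp; linarith⟩

lemma level_bound (n : ℕ) {p M c c1 R : ℝ} (hp : 0 < p) (hpn : p * n ≤ n + 1) (hM : 1 ≤ M)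
    (hc : 0 < c) (hc1 : 0 < c1) (hR : 0 ≤ R) : ∃ K : ℝ, 0 ≤ K ∧ ∀ (P : ℝ → ℂ[X]) (E A : Set ℝ)
    (r ρ : ℝ → ℝ) (u κ : ℝ), 0 < u → 0 ≤ κ → Cls (n + 1) (Ioo 0 1) P M →
    (∀ t ∈ A, t ∈ Ioo (0 : ℝ) 1 ∧ 0 < r t ∧ r t ≤ 1 ∧ u * r t ≤ ρ t ∧ ρ t ≤ 2 * u * r t ∧
      ‖Sc (n + 1) (ρ t) (P t)‖ ≤ R ∧ (c1 * ρ t < 2 * r t ∨ ∃ y ∈ Ioo (0 : ℝ) 1,
        |y - t| < 2 * r t ∧ (P y - P t).degree < (n : WithBot ℕ) ∧
        c < ‖Sc (n + 1) (ρ t) (P y - P t)‖) ∧
      volume (E ∩ ball t (17 * r t)) ≤ ENNReal.ofReal (κ * r t)) →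
    volume (E ∩ A) ≤ ENNReal.ofReal (K * κ / u ^ p) := by
  choose! K w0 hK hw0 hcov using fun (i : ℕ) (hi : i ≠ 0) =>
    cov i hi (M := M) (c := c / (2 * (n + 1))) (C := R) (by linarith) (by positivity) hR
  set U := 2 / c1 + ∑ k ∈ Finset.range n, w0 (n - k) ^ (n - k) with hU
  have hw1 : ∀ k ∈ Finset.range n, 1 ≤ w0 (n - k) := fun k hk =>
    hw0 _ (by have := Finset.mem_range.1 hk; omega)
  have hsum : 0 ≤ ∑ k ∈ Finset.range n, w0 (n - k) ^ (n - k) :=
    Finset.sum_nonneg fun k hk => pow_nonneg (zero_le_one.trans (hw1 k hk)) _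
  have hU0 : 0 < U := by positivity
  have hK0 : ∀ k ∈ Finset.range n, 0 ≤ K (n - k) := fun k hk =>
    hK _ (by have := Finset.mem_range.1 hk; omega)
  have hKs : 0 ≤ ∑ x ∈ Finset.range n ×ˢ (Finset.univ : Finset Bool), K (n - x.1) :=
    Finset.sum_nonneg fun x hx => hK0 _ (Finset.mem_product.1 hx).1
  refine ⟨2 * U ^ p + ∑ x ∈ Finset.range n ×ˢ (Finset.univ : Finset Bool), K (n - x.1),
    by positivity, fun P E A r ρ u κ hu hκ hP hA => ?_⟩
  have hup : 0 < u ^ p := by positivity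
  by_cases huU : u ≤ U
  · refine (vit E A r hκ (fun t ht => (hA t ht).1)
      (fun t ht => ⟨(hA t ht).2.1, (hA t ht).2.2.1⟩) fun t ht => ?_).trans
      (ENNReal.ofReal_le_ofReal ?_)
    · refine le_trans (measure_mono (inter_subset_inter_right _ fun x hx => ?_))
        (hA t ht).2.2.2.2.2.2.2
      exact closedBall_subset_ball (by linarith [(hA t ht).2.1])
        (hx.2 (mem_closedBall_self (hA x hx.1).2.1.le))
    · rw [le_div_iff₀ hup]
      have : u ^ p ≤ U ^ p := by gcongr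
      nlinarith [mul_nonneg hKs hκ]
  push Not at huU
  have hcover : E ∩ A ⊆ ⋃ x ∈ Finset.range n ×ˢ (Finset.univ : Finset Bool),
      E ∩ {t | t ∈ A ∧ ∃ y ∈ Ioo (0 : ℝ) 1, |y - t| < 2 * r t ∧
        c / (2 * (n + 1)) * ρ t ^ (n - x.1 + 1) ≤ |part x.1 x.2 (P y) - part x.1 x.2 (P t)|} := by
    rintro t ⟨hE, ht⟩
    obtain ⟨_, h2, _, h4, _, _, h7, _⟩ := hA t ht
    have hρ : 0 < ρ t := lt_of_lt_of_le (by positivity) h4
    rcases h7 with h7 | ⟨y, hy, h8, h9, h10⟩
    · have : 2 / c1 < u := by linarith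
      rw [div_lt_iff₀ hc1] at this
      nlinarith
    obtain ⟨k, hk, h11⟩ : ∃ k ∈ Finset.range n,
        c / (n + 1) < ‖(Sc (n + 1) (ρ t) (P y - P t)).coeff k‖ := by
      by_contra h
      push Not at h
      rw [norm_eq _ (s := Finset.range n) (fun k hk => by
        rw [mem_support_iff] at hk
        by_contra h'
        have := Sc_coeff (n + 1) hρ (P y - P t) k
        rw [coeff_eq_zero_of_degree_lt (p := P y - P t)
          (h9.trans_le (by exact_mod_cast (by simpa using h')))] at this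
        exact hk (by simpa using this))] at h10
      have := Finset.sum_le_card_nsmul _ _ _ h
      rw [Finset.card_range, nsmul_eq_mul, mul_div_assoc', le_div_iff₀ (by positivity)] at this
      nlinarith
    obtain ⟨b, hb⟩ := part_ge k (P y - P t)
    refine mem_biUnion (x := (k, b)) (by simpa using hk) ⟨hE, ht, y, hy, h8, ?_⟩
    rw [Sc_coeff _ hρ, lt_inv_mul_iff₀ (by positivity)] at h11
    have e : ρ t ^ (n + 1) = ρ t ^ (n - k + 1) * ρ t ^ k := by
      rw [← pow_add]; congr 1; have := Finset.mem_range.1 hk; omega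
    rw [e, mul_right_comm] at h11
    have h12 := lt_of_mul_lt_mul_right h11 (by positivity)
    rw [← map_sub]
    have e2 : c / (2 * (n + 1)) = c / (n + 1) / 2 := by field_simp
    simp only [e2]
    linarith
  refine (measure_mono hcover).trans ((measure_biUnion_finset_le _ _).trans ?_)
  calc _ ≤ ∑ x ∈ Finset.range n ×ˢ (Finset.univ : Finset Bool),
        ENNReal.ofReal (K (n - x.1) * κ / u ^ p) := by
        refine Finset.sum_le_sum fun ⟨k, b⟩ hx => ?_
        have hk := (Finset.mem_product.1 hx).1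
        have hk' : k < n := Finset.mem_range.1 hk
        have hi : n - k ≠ 0 := by omega
        have hwu : w0 (n - k) ^ (n - k) ≤ u := by
          have := Finset.single_le_sum (f := fun k => w0 (n - k) ^ (n - k))
            (fun k hk => pow_nonneg (zero_le_one.trans (hw1 k hk)) _) hk
          have : 0 < 2 / c1 := by positivity
          simp only at *
          linarith
        set w := u ^ (((n - k : ℕ) : ℝ)⁻¹)
        have hw : w ^ (n - k) = u := Real.rpow_inv_natCast_pow hu.le hi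
        have hw' : w0 (n - k) ≤ w :=
          le_of_pow_le_pow_left₀ hi (by positivity) (hwu.trans hw.ge)
        have hw1' : 1 ≤ w := (hw1 k hk).trans hw'
        refine (hcov (n - k) hi (fun y => part k b (P y)) E _ r ρ w κ hw' hκ ?_ ?_).trans
          (ENNReal.ofReal_le_ofReal ?_)
        · exact (hP.map (part k b) zero_le_one fun v => by
            simpa using (part_le k b v).trans (norm_coeff_le v k)).mono (by omega) le_rfl (by simp)
        · rintro t ⟨ht, h0⟩
          obtain ⟨h1, h2, _, h4, h5, h6, _, h8⟩ := hA t ht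
          have hρ : 0 < ρ t := lt_of_lt_of_le (by positivity) h4
          refine ⟨h1, h2, by rwa [hw], by rwa [hw], (part_le _ _ _).trans ?_, h0, h8⟩
          have a1 := (norm_coeff_le _ k).trans h6
          rw [Sc_coeff _ hρ, inv_mul_le_iff₀ (by positivity)] at a1
          have e : ρ t ^ (n + 1) = ρ t ^ (n - k + 1) * ρ t ^ k := by
            rw [← pow_add]; congr 1; omega
          rw [e, mul_right_comm] at a1
          rw [mul_comm]
          exact le_of_mul_le_mul_right a1 (by positivity)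
        · have := hK0 k hk
          gcongr
          rw [← hw, ← Real.rpow_natCast, ← Real.rpow_mul (by positivity), ← Real.rpow_natCast]
          refine Real.rpow_le_rpow_of_exponent_le hw1' ?_
          have : (k : ℝ) < n := by exact_mod_cast hk'
          push_cast [hk'.le]
          by_cases h : p ≤ 1
          · nlinarith
          · have : (0 : ℝ) ≤ k := by positivity
            nlinarith
    _ ≤ _ := by
        rw [← ENNReal.ofReal_sum_of_nonneg fun x hx => by
          have := hK0 _ (Finset.mem_product.1 hx).1; positivity]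
        refine ENNReal.ofReal_le_ofReal ?_
        rw [← Finset.sum_div, ← Finset.sum_mul]
        gcongr
        exact le_add_of_nonneg_left (by positivity)

lemma summable_levels {p q K : ℝ} (hp : 0 < p) (hq : p < q) (hK : 0 ≤ K) :
    Summable fun m : ℤ => min 1 (K * ((2 : ℝ) ^ (m + 1)) ^ q) / ((2 : ℝ) ^ m) ^ p := by
  refine Summable.of_nat_of_neg ?_ ?_
  · refine Summable.of_nonneg_of_le (fun k => by positivity) (fun k => ?_)
      (summable_geometric_of_lt_one (r := ((2 : ℝ) ^ p)⁻¹) (by positivity)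
        (inv_lt_one_of_one_lt₀ (Real.one_lt_rpow (by norm_num) hp)))
    rw [zpow_natCast, inv_pow, ← Real.rpow_pow_comm (by norm_num), ← one_div]
    gcongr
    exact min_le_left _ _
  · refine Summable.of_nonneg_of_le (fun k => by positivity) (fun k => ?_)
      ((summable_geometric_of_lt_one (r := (2 : ℝ) ^ (p - q)) (by positivity)
        (Real.rpow_lt_one_of_one_lt_of_neg (by norm_num) (by linarith))).mul_left (K * 2 ^ q))
    rw [div_le_iff₀ (by positivity)]
    refine (min_le_right _ _).trans (le_of_eq ?_)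
    simp only [← Real.rpow_intCast, ← Real.rpow_natCast, ← Real.rpow_mul (zero_le_two), mul_assoc,
      ← Real.rpow_add (two_pos)]
    congr 2
    push_cast; ring

lemma centred (n : ℕ) {p q M : ℝ} (hp : 0 < p) (hpn : p * n ≤ n + 1) (hq : p < q) (hM : 1 ≤ M)
    (ih : ∀ m, 1 ≤ m → m < n + 1 → WT m q) : ∃ K : ℝ, 0 ≤ K ∧ ∀ (P : ℝ → ℂ[X]) (s : ℝ),
    2 * M ≤ s → (∀ y ∈ Ioo (0 : ℝ) 1, (P y).Monic ∧ (P y).natDegree = n + 1 ∧ (P y).coeff n = 0) →
    Cls (n + 1) (Ioo 0 1) P M → volume (Es P s ∩ Ioo 0 1) ≤ ENNReal.ofReal (K / s ^ p) := by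
  obtain ⟨c, c1, K1, hc, hc1, hc1', hK1, hloc⟩ :=
    local_bound n (q := q) (by linarith) hM (R0 := M + 1) (by linarith) ih
  obtain ⟨K2, hK2, hlev⟩ := level_bound n hp hpn hM hc hc1 (R := (1 + (M + 1)) ^ (n + 1))
    (by positivity)
  have hsum := summable_levels hp hq hK1
  set f := fun m : ℤ => min 1 (K1 * ((2 : ℝ) ^ (m + 1)) ^ q) / ((2 : ℝ) ^ m) ^ p
  have hf : ∀ m, 0 ≤ f m := fun m => by positivity
  refine ⟨34 * K2 * ∑' m, f m, mul_nonneg (by positivity) (tsum_nonneg hf), fun P s hs hP hcls => ?_⟩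
  have hs0 : 0 < s := by linarith
  choose! z hz using fun y (hy : y ∈ Ioo (0 : ℝ) 1) => exists_roots (hP y hy).1 (hP y hy).2.1
  set ρ := fun t => ‖z t‖ / (M + 1) with hρ
  have hρ1 : ∀ t ∈ Ioo (0 : ℝ) 1, ρ t ≤ 1 := fun t ht => by
    rw [hρ, div_le_one (by linarith), pi_norm_le_iff_of_nonneg (by linarith)]
    exact fun i => root_le (hP t ht).1 (hP t ht).2.1 (by
      rw [hz t ht, IsRoot.def, eval_prod]
      exact Finset.prod_eq_zero (Finset.mem_univ i) (by simp)) (hcls.bound ht)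
  have hzρ : ∀ t, ‖z t‖ = (M + 1) * ρ t := fun t => by rw [hρ]; field_simp
  have hz0 : ∀ t ∈ Ioo (0 : ℝ) 1, ∑ i, z t i = 0 := fun t ht => by
    have := prod_X_sub_C_nextCoeff (s := Finset.univ) (z t)
    rw [← hz t ht, nextCoeff_of_natDegree_pos (by rw [(hP t ht).2.1]; omega), (hP t ht).2.1,
      Nat.add_sub_cancel, (hP t ht).2.2] at this
    exact neg_eq_zero.1 this.symm
  have key : ∀ t ∈ Ioo (0 : ℝ) 1, 0 < ρ t → ∃ r, 0 < r ∧ r ≤ c1 * ρ t ∧
      (∀ y ∈ Ioo (0 : ℝ) 1, |y - t| < r → ‖Sc (n + 1) (ρ t) (P y - P t)‖ ≤ c) ∧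
      (c1 * ρ t < 2 * r ∨ ∃ y ∈ Ioo (0 : ℝ) 1, |y - t| < 2 * r ∧
        c < ‖Sc (n + 1) (ρ t) (P y - P t)‖) := by
    intro t ht h0
    obtain ⟨r, hr, h1, h2⟩ := pick {r | r ≤ c1 * ρ t ∧
      ∀ y ∈ Ioo (0 : ℝ) 1, |y - t| < r → ‖Sc (n + 1) (ρ t) (P y - P t)‖ ≤ c}
      (a := min (c1 * ρ t) (c * ρ t ^ (n + 1) / M)) ⟨min_le_left _ _, fun y hy h => by
        refine (Sc_norm _ h0 (hρ1 t ht) _).trans ?_
        rw [inv_mul_le_iff₀ (by positivity)]
        refine ((hcls 1 (by omega)).lip ht hy).trans ?_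
        have := (lt_div_iff₀ (by linarith)).1 (h.trans_le (min_le_right _ _))
        linarith⟩ (by positivity) (fun x hx => hx.1)
    have hr0 : 0 < r := lt_of_lt_of_le (by positivity) h1
    refine ⟨r, hr0, hr.1, hr.2, ?_⟩
    by_contra h
    push Not at h
    exact lt_irrefl _ (h2 (2 * r) h)
  choose! r hr0 hr1 hr2 hr3 using key
  have hcover : Es P s ∩ Ioo 0 1 ⊆ Es P s ∩ {y | y ∈ Ioo (0 : ℝ) 1 ∧ P y = X ^ (n + 1)} ∪
      ⋃ m : ℤ, Es P s ∩ Ioo 0 1 ∩ {t | t ∈ Ioo (0 : ℝ) 1 ∧ 0 < ρ t ∧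
        ρ t / (r t * s) ∈ Ico ((2 : ℝ) ^ m) (2 ^ (m + 1))} := by
    rintro t ⟨hE, ht⟩
    by_cases h0 : 0 < ρ t
    · have := hr0 t ht h0
      obtain ⟨m, hm⟩ := exists_mem_Ico_zpow (x := ρ t / (r t * s)) (y := 2) (by positivity)
        (by norm_num)
      exact Or.inr (mem_iUnion.2 ⟨m, ⟨hE, ht⟩, ht, h0, hm⟩)
    · refine Or.inl ⟨hE, ht, ?_⟩
      have : z t = 0 := norm_le_zero_iff.1 (by rw [hzρ]; nlinarith)
      rw [hz t ht, this]; simp
  refine (measure_mono hcover).trans ((measure_union_le _ _).trans ?_)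
  rw [zero_part n hM hs (fun y hy => ⟨(hP y hy).1, (hP y hy).2.1⟩) (hcls _ le_rfl), zero_add]
  refine (measure_iUnion_le _).trans ?_
  calc _ ≤ ∑' m : ℤ, ENNReal.ofReal (34 * K2 / s ^ p * f m) := by
        refine ENNReal.tsum_le_tsum fun m => ?_
        refine (hlev P _ _ r ρ (s * 2 ^ m) (34 * min 1 (K1 * ((2 : ℝ) ^ (m + 1)) ^ q))
          (by positivity) (by positivity) hcls ?_).trans (le_of_eq ?_)
        · rintro t ⟨ht, h0, h1, h2⟩
          have a0 := hr0 t ht h0
          have a1 := hr1 t ht h0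
          have a2 := hρ1 t ht
          have h1' := (le_div_iff₀ (by positivity)).1 h1
          have h2' := (div_lt_iff₀ (by positivity)).1 h2
          rw [zpow_add_one₀ (by norm_num)] at h2'
          refine ⟨ht, a0, by nlinarith, by linarith, by linarith, ?_, ?_, ?_⟩
          · rw [hz t ht, Sc_prod h0]
            refine (norm_prod_le' _ _ (R := M + 1) (by linarith) fun i _ => ?_).trans (by simp)
            rw [norm_div, Complex.norm_real, Real.norm_of_nonneg h0.le, div_le_iff₀ h0, ← hzρ]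
            exact norm_le_pi_norm _ i
          · refine (hr3 t ht h0).imp_right fun ⟨y, hy, b1, b2⟩ => ⟨y, hy, b1, ?_, b2⟩
            rw [degree_lt_iff_coeff_zero]
            intro k hk
            rw [coeff_sub]
            rcases hk.eq_or_lt with rfl | hk
            · rw [(hP y hy).2.2, (hP t ht).2.2, sub_self]
            · have := deg_sub_prod Finset.univ (z y) (z t) (n := n + 1) (by simp)
              rw [← hz y hy, ← hz t ht] at this
              rw [← coeff_sub]
              exact coeff_eq_zero_of_degree_lt (this.trans_le (by exact_mod_cast hk))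
          · refine (hloc P (z t) s t (r t) (ρ t) hs0 (fun y hy => ⟨(hP y hy).1, (hP y hy).2.1⟩)
              (hcls _ le_rfl) ht (hz t ht) (hz0 t ht) h0 a2 (hzρ t) a0 a1 (hr2 t ht h0)).trans
              (ENNReal.ofReal_le_ofReal ?_)
            have : 0 ≤ q := by linarith
            gcongr
        · congr 1
          rw [Real.mul_rpow hs0.le (by positivity)]
          simp only [f]
          field_simp
    _ = _ := by
        rw [← ENNReal.ofReal_tsum_of_nonneg (fun m => by have := hf m; positivity)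
          (hsum.mul_left _), tsum_mul_left]
        congr 1; ring

lemma cls_pow {N : ℕ} {S : Set ℝ} {f : ℝ → ℂ[X]} {B : ℝ} (hB : 0 ≤ B) (h : Cls N S f B) (i : ℕ) :
    Cls N S (fun y => f y ^ i) ((2 ^ N * B) ^ i) := by
  induction i with
  | zero => simpa using cls_const norm_one'.le
  | succ i ih =>
    simp only [pow_succ]
    exact (ih.mul (by positivity) hB h).mono le_rfl le_rfl (le_of_eq (by ring))

lemma step (n : ℕ) {p q : ℝ} (hp : 0 < p) (hpn : p * n ≤ n + 1) (hq : p < q)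
    (ih : ∀ m, 1 ≤ m → m < n + 1 → WT m q) : WT (n + 1) p := by
  intro M hM
  set M1 := 1 + M + (n + 2 : ℕ) * (2 ^ (n + 1) * (M * (2 ^ (n + 1) * (1 + M)) ^ (n + 1))) with hM1
  have hM1' : 1 + M ≤ M1 := le_add_of_nonneg_right (by positivity)
  obtain ⟨K, hK, hc⟩ := centred n hp hpn hq (M := M1) (by linarith) ih
  refine ⟨(4 * M1) ^ p + K * 2 ^ p, by positivity, fun P s hs hP hcls => ?_⟩
  have hsp : 0 < s ^ p := by positivity
  by_cases hsm : s ≤ 4 * M1
  · refine (measure_mono inter_subset_right).trans ?_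
    rw [Real.volume_Ioo]
    refine ENNReal.ofReal_le_ofReal ?_
    rw [le_div_iff₀ hsp]
    have : s ^ p ≤ (4 * M1) ^ p := by gcongr
    have : 0 ≤ K * 2 ^ p := by positivity
    linarith
  let L : ℂ[X] →ₗ[ℝ] ℂ := (-((n : ℝ) + 1)⁻¹) • (lcoeff ℂ n).restrictScalars ℝ
  have hL : ∀ v, L v = -(v.coeff n / (n + 1)) := fun v => by
    simp [L, div_eq_inv_mul]
  have hLn : ∀ v, ‖L v‖ ≤ 1 * ‖v‖ := fun v => by
    rw [hL, norm_neg, norm_div, one_mul]
    refine (div_le_self (norm_nonneg _) ?_).trans (norm_coeff_le _ _)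
    have : ((n : ℂ) + 1) = ((n + 1 : ℕ) : ℂ) := by simp
    rw [this, Complex.norm_natCast]; simp
  let CL : ℂ →ₗ[ℝ] ℂ[X] := (monomial 0 : ℂ →ₗ[ℂ] ℂ[X]).restrictScalars ℝ
  have hCL : ∀ v, ‖CL v‖ ≤ 1 * ‖v‖ := fun v => by simp [CL, norm_C]
  have c1 := hcls.map L zero_le_one hLn
  have c2 := (cls_const norm_X.le).add (c1.map CL zero_le_one hCL)
  have c3 : Cls (n + 1) (Ioo 0 1) (fun y => (P y).comp (X + C (L (P y)))) M1 := by
    have := cls_sum (Finset.range (n + 2)) (N := n + 1) (S := Ioo 0 1)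
      (B := 2 ^ (n + 1) * (M * (2 ^ (n + 1) * (1 + M)) ^ (n + 1)))
      (F := fun i y => C ((P y).coeff i) * (X + C (L (P y))) ^ i) (by positivity) (fun i hi => by
        have d1 := (hcls.map ((lcoeff ℂ i).restrictScalars ℝ) zero_le_one
          (fun v => by simpa using norm_coeff_le v i)).map CL zero_le_one hCL
        refine (d1.mul (by positivity) (by positivity) (cls_pow (by positivity) c2 i)).mono
          le_rfl le_rfl ?_
        simp only [one_mul]
        gcongr
        · exact one_le_mul_of_one_le_of_one_le (one_le_pow₀ (by norm_num)) (by linarith)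
        · have := Finset.mem_range.1 hi; omega)
    refine (this.mono le_rfl le_rfl ?_).congr fun y hy => ?_
    · rw [Finset.card_range, hM1]; linarith
    · simp only
      rw [comp, eval₂_eq_sum_range, (hP y hy).2]
  have hsub : Es P s ∩ Ioo 0 1 ⊆ Es (fun y => (P y).comp (X + C (L (P y)))) (s / 2) ∩ Ioo 0 1 := by
    rintro t ⟨⟨l, h1, h2, h3⟩, ht⟩
    have hlip : ∀ᶠ u in 𝓝 t, ‖L (P u) - L (P t)‖ ≤ 1 * M * |u - t| :=
      Filter.Eventually.mono (isOpen_Ioo.mem_nhds ht) fun u hu => (c1 1 (by omega)).lip ht hu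
    refine ⟨⟨fun u => l u - L (P u), h1.mono fun u hu => by simpa [eval_comp] using hu,
      h2.sub ?_, (h3.and_eventually (nhdsWithin_le_nhds hlip)).mono fun u hu => ?_⟩, ht⟩
    · rw [ContinuousAt, tendsto_iff_norm_sub_tendsto_zero]
      refine squeeze_zero' (Eventually.of_forall fun _ => norm_nonneg _) hlip ?_
      have : Continuous fun u => 1 * M * |u - t| := by fun_prop
      simpa using this.tendsto t
    · have e : l u - l t = (l u - L (P u) - (l t - L (P t))) + (L (P u) - L (P t)) := by ring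
      have := norm_add_le (l u - L (P u) - (l t - L (P t))) (L (P u) - L (P t))
      rw [← e] at this
      nlinarith [hu.1, hu.2, abs_nonneg (u - t)]
  refine (measure_mono hsub).trans ((hc _ (s / 2) (by linarith) (fun y hy => ?_) c3).trans
    (ENNReal.ofReal_le_ofReal ?_))
  · have m1 := (hP y hy).1.comp_X_add_C (L (P y))
    have m2 : ((P y).comp (X + C (L (P y)))).natDegree = n + 1 := by
      rw [natDegree_comp, natDegree_X_add_C, (hP y hy).2, mul_one]
    refine ⟨m1, m2, ?_⟩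
    obtain ⟨z, hz⟩ := exists_roots (hP y hy).1 (hP y hy).2
    have a1 := prod_X_sub_C_nextCoeff (s := Finset.univ) z
    rw [← hz, nextCoeff_of_natDegree_pos (by rw [(hP y hy).2]; omega), (hP y hy).2,
      Nat.add_sub_cancel] at a1
    have a2 : (P y).comp (X + C (L (P y))) = ∏ i, (X - C (z i - L (P y))) := by
      conv_lhs => rw [hz, Polynomial.prod_comp]
      rw [← hz]
      exact Finset.prod_congr rfl fun i _ => by simp only [sub_comp, X_comp, C_comp, map_sub]; ring
    have a3 := prod_X_sub_C_nextCoeff (s := Finset.univ) fun i => z i - L (P y)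
    rw [← a2, nextCoeff_of_natDegree_pos (by rw [m2]; omega), m2, Nat.add_sub_cancel] at a3
    rw [a3, Finset.sum_sub_distrib, hL, a1]
    have : (n : ℂ) + 1 ≠ 0 := by exact_mod_cast Nat.succ_ne_zero n
    simp only [Finset.sum_const, Finset.card_univ, Fintype.card_fin, nsmul_eq_mul]
    push_cast
    field_simp
    ring
  · rw [Real.div_rpow hs.le zero_le_two, div_div_eq_mul_div]
    gcongr
    exact le_add_of_nonneg_left (by positivity)

theorem weak_type (n : ℕ) : ∀ p : ℝ, 0 < p → p * n ≤ n + 1 → WT (n + 1) p := by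
  induction n using Nat.strong_induction_on with
  | _ n ih =>
    intro p hp hpn
    rcases Nat.eq_zero_or_pos n with rfl | hn
    · exact step 0 hp hpn (lt_add_one p) fun m h1 h2 => by omega
    · have hn' : (1 : ℝ) ≤ n := by exact_mod_cast hn
      have h0 : (0 : ℝ) < 2 * n - 1 := by linarith
      refine step n hp hpn (q := (2 * n + 1) / (2 * n - 1)) ?_ fun m h1 h2 => ?_
      · rw [lt_div_iff₀ h0]; nlinarith
      · obtain ⟨m, rfl⟩ : ∃ k, m = k + 1 := ⟨m - 1, by omega⟩
        refine ih m (by omega) _ (by positivity) ?_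
        rw [div_mul_eq_mul_div, div_le_iff₀ h0]
        have : (m : ℝ) + 1 ≤ n := by exact_mod_cast (by omega : m + 1 ≤ n)
        nlinarith

end Pool.Agent.H286Z.Roots
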