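import Pool.Agent.H286Z.Roots.Cls

set_option autoImplicit false

namespace Pool.Agent.H286Z.Roots
open Set Polynomial

/-- sum of the norms of the coefficients -/
noncomputable def l1 (p : ℂ[X]) : ℝ := ∑ i ∈ p.support, ‖p.coeff i‖

lemma l1_eq (p : ℂ[X]) {s : Finset ℕ} (h : p.support ⊆ s) : l1 p = ∑ i ∈ s, ‖p.coeff i‖ :=
  Finset.sum_subset h fun i _ hi => by simpa using hi

/-- the coefficient norm -/
noncomputable def l1N : AddGroupNorm ℂ[X] where
  toFun := l1
  map_zero' := by simp [l1]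
  add_le' p q := by
    rw [l1_eq (p + q) (s := p.support ∪ q.support) support_add,
      l1_eq p (s := p.support ∪ q.support) Finset.subset_union_left,
      l1_eq q (s := p.support ∪ q.support) Finset.subset_union_right, ← Finset.sum_add_distrib]
    exact Finset.sum_le_sum fun i _ => by rw [coeff_add]; exact norm_add_le _ _
  neg' p := by simp [l1]
  eq_zero_of_map_eq_zero' p h := by
    ext i
    by_contra hi
    have := (Finset.sum_eq_zero_iff_of_nonneg (fun i _ => norm_nonneg (p.coeff i))).1 h i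
      (by simpa using hi)
    simp_all

noncomputable scoped instance nacg : NormedAddCommGroup ℂ[X] := l1N.toNormedAddCommGroup

lemma norm_def (p : ℂ[X]) : ‖p‖ = ∑ i ∈ p.support, ‖p.coeff i‖ := rfl

lemma norm_eq (p : ℂ[X]) {s : Finset ℕ} (h : p.support ⊆ s) : ‖p‖ = ∑ i ∈ s, ‖p.coeff i‖ :=
  l1_eq p h

lemma norm_monomial (i : ℕ) (a : ℂ) : ‖monomial i a‖ = ‖a‖ := by
  rw [norm_eq _ (support_monomial' i a)]; simp

lemma norm_C (a : ℂ) : ‖C a‖ = ‖a‖ := norm_monomial 0 a

lemma norm_X : ‖(X : ℂ[X])‖ = 1 := by rw [← monomial_one_one_eq_X, norm_monomial, norm_one]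

lemma norm_coeff_le (p : ℂ[X]) (i : ℕ) : ‖p.coeff i‖ ≤ ‖p‖ := by
  by_cases h : i ∈ p.support
  · exact Finset.single_le_sum (f := fun i => ‖p.coeff i‖) (fun _ _ => norm_nonneg _) h
  · rw [notMem_support_iff.1 h, norm_zero]; exact norm_nonneg _

noncomputable scoped instance ncr : NormedCommRing ℂ[X] :=
  { nacg, (inferInstance : CommRing ℂ[X]) with
    norm_mul_le := fun p q => by
      rw [mul_eq_sum_sum, norm_def p, norm_def q, Finset.sum_mul_sum]
      refine norm_sum_le_of_le _ fun i _ => ?_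
      refine norm_sum_le_of_le _ fun j _ => ?_
      rw [norm_monomial, norm_mul] }

noncomputable scoped instance nalg : NormedAlgebra ℝ ℂ[X] where
  norm_smul_le c p := by
    rw [norm_eq _ (support_smul c p), norm_def, Finset.mul_sum]
    exact Finset.sum_le_sum fun i _ => by rw [coeff_smul]; exact norm_smul_le _ _

lemma norm_one' : ‖(1 : ℂ[X])‖ = 1 := by rw [← C_1, norm_C, norm_one]

lemma norm_eq_range (p : ℂ[X]) {d : ℕ} (h : p.degree < d) :
    ‖p‖ = ∑ i ∈ Finset.range d, ‖p.coeff i‖ :=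
  norm_eq p (supp_subset_range_of_degree_lt h)
where
  supp_subset_range_of_degree_lt {p : ℂ[X]} {d : ℕ} (h : p.degree < d) :
      p.support ⊆ Finset.range d := fun i hi =>
    Finset.mem_range.2 (by exact_mod_cast (le_degree_of_mem_supp i hi).trans_lt h)

lemma norm_eval_le (p : ℂ[X]) {d : ℕ} (h : p.degree < d) {R : ℝ} (hR : 1 ≤ R) {z : ℂ}
    (hz : ‖z‖ ≤ R) : ‖p.eval z‖ ≤ R ^ d * ‖p‖ := by
  rw [eval_eq_sum, Polynomial.sum, norm_def, Finset.mul_sum]
  refine norm_sum_le_of_le _ fun i hi => ?_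
  have : i < d := by exact_mod_cast (le_degree_of_mem_supp i hi).trans_lt h
  rw [norm_mul, norm_pow, mul_comm]
  refine mul_le_mul_of_nonneg_right ?_ (norm_nonneg _)
  exact (pow_le_pow_left₀ (norm_nonneg _) hz _).trans (pow_le_pow_right₀ hR this.le)

lemma norm_X_sub_C {z : ℂ} {R : ℝ} (hz : ‖z‖ ≤ R) : ‖X - C z‖ ≤ 1 + R := by
  have := norm_sub_le X (C z)
  rw [norm_X, norm_C] at this; linarith

lemma norm_prod_le' {ι : Type} (s : Finset ι) (z : ι → ℂ) {R : ℝ} (hR : 0 ≤ R)
    (hz : ∀ i ∈ s, ‖z i‖ ≤ R) : ‖∏ i ∈ s, (X - C (z i))‖ ≤ (1 + R) ^ s.card := by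
  classical
  induction s using Finset.induction_on with
  | empty => simp [norm_one']
  | insert a s ha ih =>
    rw [Finset.prod_insert ha, Finset.card_insert_of_notMem ha, pow_succ']
    exact (norm_mul_le _ _).trans (mul_le_mul (norm_X_sub_C (hz a (by simp)))
      (ih fun i hi => hz i (by simp [hi])) (norm_nonneg _) (by positivity))

lemma div_bound (d : ℕ) {R : ℝ} (hR : 0 ≤ R) : ∃ K : ℝ, 1 ≤ K ∧ ∀ (p : ℂ[X]) (z : ℂ),
    p.degree < d → ‖z‖ ≤ R → ‖p‖ ≤ K * ‖(X - C z) * p‖ := by
  induction d with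
  | zero =>
    refine ⟨1, le_rfl, fun p z hp _ => ?_⟩
    have : p = 0 := by simpa using hp
    simp [this]
  | succ d ih =>
    obtain ⟨K, hK, ih⟩ := ih
    refine ⟨K * (2 + R) + 1, by nlinarith, fun p z hp hz => ?_⟩
    have h0 : p.coeff (d + 1) = 0 := coeff_eq_zero_of_degree_lt hp
    have h1 : ‖p.coeff d‖ ≤ ‖(X - C z) * p‖ := by
      have := norm_coeff_le ((X - C z) * p) (d + 1)
      have e : ((X - C z) * p).coeff (d + 1) = p.coeff d := by
        rw [sub_mul, coeff_sub, coeff_X_mul, coeff_C_mul, h0, mul_zero, sub_zero]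
      rwa [e] at this
    have h2 : (p - monomial d (p.coeff d)).degree < d := by
      rw [degree_lt_iff_coeff_zero]
      intro m hm
      rw [coeff_sub, coeff_monomial]
      split_ifs with h
      · simp [h]
      · rw [sub_zero]
        exact coeff_eq_zero_of_degree_lt (hp.trans_le (by exact_mod_cast (by omega)))
    have h3 := ih _ z h2 hz
    have h4 : ‖(X - C z) * (p - monomial d (p.coeff d))‖ ≤ (2 + R) * ‖(X - C z) * p‖ := by
      rw [mul_sub]
      refine (norm_sub_le _ _).trans ?_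
      have := (norm_mul_le (X - C z) (monomial d (p.coeff d))).trans
        (mul_le_mul (norm_X_sub_C hz) ((norm_monomial _ _).trans_le h1) (norm_nonneg _)
          (by positivity))
      linarith
    have h5 := norm_add_le (p - monomial d (p.coeff d)) (monomial d (p.coeff d))
    rw [sub_add_cancel, norm_monomial] at h5
    have := mul_le_mul_of_nonneg_left h4 (zero_le_one.trans hK)
    nlinarith

lemma sylvester (n m : ℕ) {R δ : ℝ} (hR : 1 ≤ R) (hδ : 0 < δ) : ∃ K : ℝ, 1 ≤ K ∧
    ∀ (ι : Type) (s : Finset ι) (z : ι → ℂ) (Q A B : ℂ[X]), s.card = m → (∀ i ∈ s, ‖z i‖ ≤ R) →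
    (∀ i ∈ s, δ ≤ ‖Q.eval (z i)‖) → ‖Q‖ ≤ R → Q.degree ≤ n → A.degree < n → B.degree < m →
    ‖A‖ ≤ K * ‖A * ∏ i ∈ s, (X - C (z i)) + Q * B‖ ∧
    ‖B‖ ≤ K * ‖A * ∏ i ∈ s, (X - C (z i)) + Q * B‖ := by
  classical
  have hdeg : ∀ (m : ℕ) (ι : Type) (s : Finset ι) (z : ι → ℂ) (Q A B : ℂ[X]), s.card = m →
      Q.degree ≤ n → A.degree < n → B.degree < m →
      (A * ∏ i ∈ s, (X - C (z i)) + Q * B).degree < (n + m : ℕ) := by
    intro m ι s z Q A B hs hQ hA hB
    refine (degree_add_le _ _).trans_lt (max_lt ?_ ?_)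
    · rw [degree_mul, degree_prod]
      simp only [degree_X_sub_C, Finset.sum_const, hs, nsmul_eq_mul, mul_one]
      push_cast
      exact WithBot.add_lt_add_right (by simp) hA
    · rw [degree_mul]
      push_cast
      exact lt_of_le_of_lt (add_le_add_left hQ _) (WithBot.add_lt_add_left (by simp) hB)
  induction m with
  | zero =>
    refine ⟨1, le_rfl, fun ι s z Q A B hs _ _ _ _ _ hB => ?_⟩
    have : B = 0 := by simpa using hB
    rw [Finset.card_eq_zero] at hs
    simp [this, hs]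
  | succ m ih =>
    obtain ⟨K, hK, ih⟩ := ih
    obtain ⟨K', hK', hd⟩ := div_bound (n + m) (zero_le_one.trans hR)
    set c := R ^ (n + (m + 1)) / δ with hc
    have hc0 : 0 ≤ c := by positivity
    have hL : 1 ≤ K * (K' * (1 + R * c)) :=
      one_le_mul_of_one_le_of_one_le hK (one_le_mul_of_one_le_of_one_le hK' (by nlinarith))
    refine ⟨c + (1 + R) * (K * (K' * (1 + R * c))), by nlinarith,
      fun ι s z Q A B hs hz hQ hQ' hQd hA hB => ?_⟩
    obtain ⟨a, s, ha, rfl⟩ : ∃ a s', a ∉ s' ∧ s = insert a s' := by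
      obtain ⟨a, ha⟩ : s.Nonempty := Finset.card_pos.1 (by omega)
      exact ⟨a, s.erase a, by simp, (Finset.insert_erase ha).symm⟩
    have hs' : s.card = m := by rw [Finset.card_insert_of_notMem ha] at hs; omega
    have hS := hdeg _ _ _ z Q A B hs hQd hA hB
    set S := A * ∏ i ∈ insert a s, (X - C (z i)) + Q * B with hSdef
    have e1 : S.eval (z a) = Q.eval (z a) * B.eval (z a) := by
      simp [hSdef, Finset.prod_insert ha]
    have h1 : ‖B.eval (z a)‖ ≤ c * ‖S‖ := by
      have := norm_eval_le S hS hR (hz a (by simp))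
      rw [e1, norm_mul] at this
      rw [hc, div_mul_eq_mul_div, le_div_iff₀ hδ]
      nlinarith [hQ a (by simp), norm_nonneg (B.eval (z a))]
    set B' := B /ₘ (X - C (z a))
    have e2 : B = (X - C (z a)) * B' + C (B.eval (z a)) := by
      have := modByMonic_add_div B (X - C (z a))
      rw [modByMonic_X_sub_C_eq_C_eval] at this
      linear_combination -this
    have hB' : B'.degree < m := by
      by_cases h0 : B' = 0
      · rw [h0]; simp
      · have h3 : B.degree = 1 + B'.degree := by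
          have h4 : ((X - C (z a)) * B').degree = 1 + B'.degree := by
            rw [degree_mul, degree_X_sub_C]
          rw [e2, degree_add_eq_left_of_degree_lt, h4]
          rw [h4, degree_eq_natDegree h0]
          exact degree_C_le.trans_lt (by exact_mod_cast (by omega))
        rw [h3, degree_eq_natDegree h0] at hB
        rw [degree_eq_natDegree h0]
        have : 1 + B'.natDegree < m + 1 := by exact_mod_cast hB
        exact_mod_cast (by omega)
    obtain ⟨i1, i2⟩ := ih ι s z Q A B' hs' (fun i hi => hz i (by simp [hi]))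
      (fun i hi => hQ i (by simp [hi])) hQ' hQd hA hB'
    have i3 := hd _ (z a) (hdeg _ _ _ z Q A B' hs' hQd hA hB') (hz a (by simp))
    set S' := A * ∏ i ∈ s, (X - C (z i)) + Q * B'
    have e3 : (X - C (z a)) * S' = S - Q * C (B.eval (z a)) := by
      rw [hSdef, Finset.prod_insert ha]
      conv_rhs => rw [e2]
      simp only [S', eval_add, eval_mul, eval_sub, eval_X, eval_C, sub_self, zero_mul, zero_add]
      ring
    have i4 : ‖(X - C (z a)) * S'‖ ≤ (1 + R * c) * ‖S‖ := by
      rw [e3]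
      refine (norm_sub_le _ _).trans ?_
      have := (norm_mul_le Q (C (B.eval (z a)))).trans
        (mul_le_mul hQ' ((norm_C _).trans_le h1) (norm_nonneg _) (by positivity))
      linarith
    have i5 : K * ‖S'‖ ≤ K * (K' * (1 + R * c)) * ‖S‖ := by
      rw [mul_assoc, mul_assoc]
      exact mul_le_mul_of_nonneg_left
        (i3.trans (mul_le_mul_of_nonneg_left i4 (by positivity))) (by positivity)
    have hS0 := norm_nonneg S
    have i6 : 0 ≤ K * (K' * (1 + R * c)) * ‖S‖ := by positivity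
    constructor
    · nlinarith [mul_nonneg hc0 hS0]
    · have i7 := norm_add_le ((X - C (z a)) * B') (C (B.eval (z a)))
      rw [← e2, norm_C] at i7
      have i8 := (norm_mul_le (X - C (z a)) B').trans
        (mul_le_mul (norm_X_sub_C (hz a (by simp))) (i2.trans i5) (norm_nonneg _) (by positivity))
      nlinarith

lemma root_bound {p : ℂ[X]} {n : ℕ} (hm : p.Monic) (hn : p.natDegree = n) {z : ℂ}
    (hz : p.IsRoot z) : ‖z‖ ^ n ≤ max 1 ‖z‖ ^ (n - 1) * ‖p - X ^ n‖ := by
  have h1 : (p - X ^ n).degree < (n : WithBot ℕ) := by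
    have := degree_sub_lt (p := p) (q := X ^ n) (by rw [degree_X_pow, degree_eq_natDegree hm.ne_zero, hn])
      hm.ne_zero (by simp [hm.leadingCoeff])
    rwa [degree_eq_natDegree hm.ne_zero, hn] at this
  have h2 : (p - X ^ n).eval z = -z ^ n := by simp [hz.eq_zero]
  rw [← norm_pow, ← norm_neg, ← h2, eval_eq_sum, Polynomial.sum, norm_def, Finset.mul_sum]
  refine norm_sum_le_of_le _ fun i hi => ?_
  have : i < n := by exact_mod_cast (le_degree_of_mem_supp i hi).trans_lt h1
  rw [norm_mul, norm_pow, mul_comm]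
  refine mul_le_mul_of_nonneg_right ?_ (norm_nonneg _)
  exact (pow_le_pow_left₀ (norm_nonneg _) (le_max_right _ _) _).trans
    (pow_le_pow_right₀ (le_max_left _ _) (by omega))

lemma root_le {p : ℂ[X]} {n : ℕ} (hm : p.Monic) (hn : p.natDegree = n) {z : ℂ}
    (hz : p.IsRoot z) {M : ℝ} (hM : ‖p‖ ≤ M) : ‖z‖ ≤ M + 1 := by
  have h0 : 0 ≤ M := (norm_nonneg _).trans hM
  by_contra h
  have h1 : 1 < ‖z‖ := by linarith
  have hn0 : n ≠ 0 := by
    rintro rfl
    rw [hm.natDegree_eq_zero] at hn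
    simp [hn] at hz
  have h2 := root_bound hm hn hz
  have h3 : ‖p - X ^ n‖ ≤ M + 1 := by
    have := norm_sub_le p (X ^ n)
    rw [← monomial_one_right_eq_X_pow, norm_monomial, norm_one] at this
    rw [← monomial_one_right_eq_X_pow]; linarith
  obtain ⟨n, rfl⟩ := Nat.exists_eq_succ_of_ne_zero hn0
  rw [max_eq_right h1.le, pow_succ] at h2
  simp only [Nat.succ_sub_one] at h2
  have : 0 < ‖z‖ ^ n := by positivity
  have := le_of_mul_le_mul_left h2 this
  linarith

lemma root_small {p : ℂ[X]} {n : ℕ} (hm : p.Monic) (hn : p.natDegree = n) (hn0 : n ≠ 0) {z : ℂ}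
    (hz : p.IsRoot z) {d : ℝ} (hd : 0 ≤ d) (hd1 : d ≤ 1) (h : ‖p - X ^ n‖ ≤ d ^ n) : ‖z‖ ≤ d := by
  have h2 := root_bound hm hn hz
  by_cases h1 : ‖z‖ ≤ 1
  · rw [max_eq_left h1, one_pow, one_mul] at h2
    exact le_of_pow_le_pow_left₀ hn0 hd (h2.trans h)
  · obtain ⟨n, rfl⟩ := Nat.exists_eq_succ_of_ne_zero hn0
    rw [max_eq_right (not_le.1 h1).le, pow_succ] at h2
    simp only [Nat.succ_sub_one] at h2
    have h3 : 0 < ‖z‖ ^ n := pow_pos (by linarith) _
    have := le_of_mul_le_mul_left h2 h3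
    have := pow_le_one₀ (n := n.succ) hd hd1
    exact (h1 (by linarith)).elim

lemma exists_roots {p : ℂ[X]} {n : ℕ} (hm : p.Monic) (hn : p.natDegree = n) :
    ∃ z : Fin n → ℂ, p = ∏ i, (X - C (z i)) := by
  have hs := IsAlgClosed.splits p
  have h1 := hs.eq_prod_roots_of_monic hm
  have h2 : p.roots.toList.length = n := by
    rw [Multiset.length_toList, ← hs.natDegree_eq_card_roots, hn]
  subst h2
  refine ⟨p.roots.toList.get, ?_⟩
  conv_lhs => rw [h1, ← Multiset.coe_toList p.roots, Multiset.map_coe, Multiset.prod_coe]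
  rw [← List.prod_ofFn]
  congr 1
  apply List.ext_get <;> simp

end Pool.Agent.H286Z.Roots
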