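import Pool.Agent.H286Z.Roots.Norm

set_option autoImplicit false

namespace Pool.Agent.H286Z.Roots
open Set Polynomial Metric

lemma continuous_C' : Continuous (C : ℂ → ℂ[X]) :=
  (AddMonoidHomClass.isometry_of_norm (C : ℂ →+* ℂ[X]) norm_C).continuous

lemma perm_close (n : ℕ) (R : ℝ) {ε : ℝ} (hε : 0 < ε) : ∃ c : ℝ, 0 < c ∧ ∀ z w : Fin n → ℂ,
    (∀ i, ‖z i‖ ≤ R) → (∀ i, ‖w i‖ ≤ R) → ‖∏ i, (X - C (z i)) - ∏ i, (X - C (w i))‖ < c →
    ∃ σ : Equiv.Perm (Fin n), ∀ i, ‖z i - w (σ i)‖ < ε := by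
  classical
  let B : Set (Fin n → ℂ) := univ.pi fun _ => closedBall 0 R
  have hB : IsCompact B := isCompact_univ_pi fun _ => isCompact_closedBall _ _
  let F : Set ((Fin n → ℂ) × (Fin n → ℂ)) :=
    ⋂ σ : Equiv.Perm (Fin n), ⋃ i, {p | ε ≤ ‖p.1 i - p.2 (σ i)‖}
  have hF : IsClosed F := isClosed_iInter fun σ => isClosed_iUnion_of_finite fun i =>
    isClosed_le continuous_const (by fun_prop)
  have hC := continuous_C'
  obtain ⟨c, hc, h⟩ := ((hB.prod hB).inter_right hF).exists_forall_le'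
    (f := fun p => ‖∏ i, (X - C (p.1 i)) - ∏ i, (X - C (p.2 i))‖) (a := 0)
    (Continuous.continuousOn (by fun_prop)) (by
      rintro ⟨z, w⟩ ⟨_, hp⟩
      rw [norm_pos_iff, sub_ne_zero]
      intro e
      have h1 : ∀ z : Fin n → ℂ, (∏ i, (X - C (z i))).roots = Finset.univ.val.map z := fun z => by
        rw [← roots_multiset_prod_X_sub_C (Finset.univ.val.map z), Multiset.map_map]; rfl
      have h2 : Finset.univ.val.map z = Finset.univ.val.map w := by rw [← h1, ← h1]; exact congrArg _ e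
      have h3 : ∀ c, Fintype.card {a // z a = c} = Fintype.card {a // w a = c} := fun c => by
        have := congrArg (Multiset.count c) h2
        rw [Multiset.count_map, Multiset.count_map] at this
        simpa [Fintype.card_subtype, eq_comm, Finset.card, Finset.filter] using this
      obtain ⟨i, hi⟩ := mem_iUnion.1 (mem_iInter.1 hp
        (Equiv.ofFiberEquiv fun c => Fintype.equivOfCardEq (h3 c)))
      simp only [mem_ofPred_eq, Equiv.ofFiberEquiv_map, sub_self, norm_zero] at hi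
      linarith)
  refine ⟨c, hc, fun z w hz hw hlt => ?_⟩
  by_contra hcon
  push Not at hcon
  have := h (z, w) ⟨⟨fun i _ => by simpa using hz i, fun i _ => by simpa using hw i⟩,
    mem_iInter.2 fun σ => mem_iUnion.2 (hcon σ)⟩
  linarith

lemma gap {n : ℕ} (z : Fin n → ℂ) (hs : ∑ i, z i = 0) (i0 : Fin n) (h1 : 1 ≤ ‖z i0‖) :
    ∃ A : Finset (Fin n), A.Nonempty ∧ Aᶜ.Nonempty ∧ ∀ i ∈ A, ∀ k ∈ Aᶜ, 1 / (n : ℝ) ≤ ‖z i - z k‖ := by
  classical
  have hn : (0 : ℝ) < n := by exact_mod_cast i0.pos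
  obtain ⟨i1, hi1⟩ : ∃ i1, 1 ≤ ‖z i1 - z i0‖ := by
    by_contra h
    push Not at h
    have a1 : ‖∑ i, (z i - z i0)‖ < ∑ _i : Fin n, (1 : ℝ) :=
      (norm_sum_le _ _).trans_lt (Finset.sum_lt_sum_of_nonempty ⟨i0, by simp⟩ fun i _ => h i)
    simp only [Finset.sum_sub_distrib, hs, Finset.sum_const, Finset.card_univ, Fintype.card_fin,
      nsmul_eq_mul, zero_sub, norm_neg, norm_mul, Complex.norm_natCast, mul_one] at a1
    nlinarith
  obtain ⟨k, hk⟩ : ∃ k : Fin n, ∀ i, ‖z i - z i0‖ ≤ k / n ∨ (k + 1) / n ≤ ‖z i - z i0‖ := by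
    by_contra h
    push Not at h
    choose f hf using h
    have hinj : Function.Injective f := by
      intro a b e
      have a1 := hf a
      have a2 := hf b
      rw [e] at a1
      have b1 := (div_lt_div_iff_of_pos_right hn).1 (a1.1.trans a2.2)
      have b2 := (div_lt_div_iff_of_pos_right hn).1 (a2.1.trans a1.2)
      have c1 : (a : ℕ) < b + 1 := by exact_mod_cast b1
      have c2 : (b : ℕ) < a + 1 := by exact_mod_cast b2
      exact Fin.ext (by omega)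
    obtain ⟨a, ha⟩ := Finite.injective_iff_surjective.1 hinj i0
    have := (hf a).1
    rw [ha, sub_self, norm_zero] at this
    exact absurd this (not_lt.2 (by positivity))
  refine ⟨Finset.univ.filter fun i => ‖z i - z i0‖ ≤ k / n, ⟨i0, by simp; positivity⟩,
    ⟨i1, ?_⟩, fun i hi l hl => ?_⟩
  · simp only [Finset.mem_compl, Finset.mem_filter, Finset.mem_univ, true_and, not_le]
    exact lt_of_lt_of_le ((div_lt_one hn).2 (by exact_mod_cast k.2)) hi1
  · simp only [Finset.mem_compl, Finset.mem_filter, Finset.mem_univ, true_and] at hi hl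
    have a1 := (hk l).resolve_left hl
    have a2 := norm_sub_le_norm_sub_add_norm_sub (z l) (z i) (z i0)
    rw [add_div] at a1
    rw [norm_sub_rev]; linarith

lemma D_deg {f : ℝ → ℂ[X]} {x y : ℝ} {n : ℕ} (h : (f y - f x).degree < (n : WithBot ℕ)) :
    (D x f y).degree < (n : WithBot ℕ) := (degree_smul_le _ _).trans_lt h

/-- stable solvability of the Bezout equation -/
def Syl (n m : ℕ) (K : ℝ) (Q R : ℂ[X]) : Prop := ∀ a b : ℂ[X], a.degree < (n : WithBot ℕ) →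
  b.degree < (m : WithBot ℕ) → ‖a‖ ≤ K * ‖a * R + Q * b‖ ∧ ‖b‖ ≤ K * ‖a * R + Q * b‖

lemma syl_cls (N n m : ℕ) {K0 MR : ℝ} (hK0 : 1 ≤ K0) (hMR : 0 ≤ MR) : ∃ K : ℝ, K0 ≤ K ∧
    ∀ (S : Set ℝ) (R a b : ℝ → ℂ[X]) (Q : ℂ[X]) (M : ℝ), 0 ≤ M → (∀ y ∈ S, Syl n m K0 Q (R y)) →
    Cls N S R MR → (∀ y ∈ S, (a y).degree < (n : WithBot ℕ) ∧ (b y).degree < (m : WithBot ℕ)) →
    Cls N S (fun y => a y * R y + Q * b y) M → Cls N S a (K * M) ∧ Cls N S b (K * M) := by
  induction N with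
  | zero =>
    refine ⟨K0, le_rfl, fun S R a b Q M _ hs _ hd h => ⟨cls_zero.2 fun y hy => ?_,
      cls_zero.2 fun y hy => ?_⟩⟩
    · exact (hs y hy _ _ (hd y hy).1 (hd y hy).2).1.trans (by gcongr; exact h.bound hy)
    · exact (hs y hy _ _ (hd y hy).1 (hd y hy).2).2.trans (by gcongr; exact h.bound hy)
  | succ N ih =>
    obtain ⟨K, hK, ih⟩ := ih
    have h0 : 0 ≤ 2 ^ N * (K0 * MR) := by positivity
    have hK' : K0 ≤ K * (1 + 2 ^ N * (K0 * MR)) := by nlinarith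
    refine ⟨K * (1 + 2 ^ N * (K0 * MR)), hK', fun S R a b Q M hM hs hR hd h => ?_⟩
    have b1 : ∀ y ∈ S, ‖a y‖ ≤ K0 * M := fun y hy =>
      (hs y hy _ _ (hd y hy).1 (hd y hy).2).1.trans (by gcongr; exact h.bound hy)
    have b2 : ∀ y ∈ S, ‖b y‖ ≤ K0 * M := fun y hy =>
      (hs y hy _ _ (hd y hy).1 (hd y hy).2).2.trans (by gcongr; exact h.bound hy)
    have key : ∀ x ∈ S, Cls N (S \ {x}) (D x a) (K * (1 + 2 ^ N * (K0 * MR)) * M) ∧
        Cls N (S \ {x}) (D x b) (K * (1 + 2 ^ N * (K0 * MR)) * M) := by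
      intro x hx
      rw [mul_assoc]
      refine ih (S \ {x}) R (D x a) (D x b) Q _ (by positivity) (fun y hy => hs y hy.1)
        (hR.mono (Nat.le_succ N) diff_subset le_rfl) (fun y hy => ⟨D_deg ?_, D_deg ?_⟩) ?_
      · exact (degree_sub_le _ _).trans_lt (max_lt (hd y hy.1).1 (hd x hx).1)
      · exact (degree_sub_le _ _).trans_lt (max_lt (hd y hy.1).2 (hd x hx).2)
      · have c1 := ((cls_succ.1 h).2 x hx).sub (Cls.mul (by positivity) hMR
          (cls_const (b1 x hx)) ((cls_succ.1 hR).2 x hx))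
        refine (c1.mono le_rfl le_rfl (le_of_eq (by ring))).congr fun y _ => ?_
        simp only [D, smul_mul_assoc, mul_smul_comm, ← smul_add, ← smul_sub]
        congr 1; ring
    exact ⟨cls_succ.2 ⟨fun y hy => (b1 y hy).trans (by gcongr), fun x hx => (key x hx).1⟩,
      cls_succ.2 ⟨fun y hy => (b2 y hy).trans (by gcongr), fun x hx => (key x hx).2⟩⟩

lemma factor_cls (N n m : ℕ) {K0 M R1 : ℝ} (hK0 : 1 ≤ K0) (hM : 0 ≤ M) (hR1 : 0 ≤ R1) :
    ∃ K : ℝ, R1 ≤ K ∧ ∀ (S : Set ℝ) (Q R : ℝ → ℂ[X]), (∀ x ∈ S, ∀ y ∈ S, Syl n m K0 (Q x) (R y) ∧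
      (Q y - Q x).degree < (n : WithBot ℕ) ∧ (R y - R x).degree < (m : WithBot ℕ)) →
    (∀ y ∈ S, ‖R y‖ ≤ R1) → Cls N S (fun y => Q y * R y) M → Cls N S R K := by
  induction N with
  | zero => exact ⟨R1, le_rfl, fun S Q R _ h _ => cls_zero.2 h⟩
  | succ N ih =>
    obtain ⟨K, hK, ih⟩ := ih
    obtain ⟨K', hK', hs⟩ := syl_cls N n m hK0 (hR1.trans hK)
    have : 0 ≤ K' * M := mul_nonneg (by linarith) hM
    refine ⟨R1 + K' * M, by linarith, fun S Q R h1 h2 h3 => cls_succ.2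
      ⟨fun y hy => (h2 y hy).trans (by linarith), fun x hx => ?_⟩⟩
    have c1 := ih S Q R h1 h2 (h3.mono (Nat.le_succ N) le_rfl le_rfl)
    refine (hs (S \ {x}) R (D x Q) (D x R) (Q x) M hM (fun y hy => (h1 x hx y hy.1).1)
      (c1.mono le_rfl diff_subset le_rfl)
      (fun y hy => ⟨D_deg (h1 x hx y hy.1).2.1, D_deg (h1 x hx y hy.1).2.2⟩) ?_).2.mono
      le_rfl le_rfl (by linarith)
    refine ((cls_succ.1 h3).2 x hx).congr fun y _ => ?_
    simp only [D, smul_mul_assoc, mul_smul_comm, ← smul_add]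
    congr 1; ring

lemma deg_sub_prod {ι : Type} (s : Finset ι) (z w : ι → ℂ) {n : ℕ} (h : s.card ≤ n) :
    (∏ i ∈ s, (X - C (z i)) - ∏ i ∈ s, (X - C (w i))).degree < (n : WithBot ℕ) := by
  have m1 := monic_prod_X_sub_C z s
  have m2 := monic_prod_X_sub_C w s
  have d : ∀ z : ι → ℂ, (∏ i ∈ s, (X - C (z i))).degree = (s.card : WithBot ℕ) := fun z => by
    rw [degree_prod]; simp
  refine (degree_sub_lt (by rw [d, d]) m1.ne_zero (by rw [m1.leadingCoeff, m2.leadingCoeff])).trans_le ?_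
  rw [d]; exact_mod_cast h

lemma split_cls (N n : ℕ) {R0 δ M : ℝ} (hR0 : 0 ≤ R0) (hδ : 0 < δ) (hδ1 : δ ≤ 1) (hM : 0 ≤ M) :
    ∃ K : ℝ, 0 ≤ K ∧ ∀ (S : Set ℝ) (w : ℝ → Fin n → ℂ) (A B : Finset (Fin n)),
    (∀ y ∈ S, ∀ i, ‖w y i‖ ≤ R0) → (∀ x ∈ S, ∀ y ∈ S, ∀ i ∈ A, ∀ k ∈ B, δ ≤ ‖w y k - w x i‖) →
    Cls N S (fun y => (∏ i ∈ A, (X - C (w y i))) * ∏ i ∈ B, (X - C (w y i))) M →
    Cls N S (fun y => ∏ i ∈ B, (X - C (w y i))) K := by
  have hR : 1 ≤ (1 + R0) ^ n + R0 := by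
    have : 1 ≤ (1 + R0) ^ n := one_le_pow₀ (by linarith)
    linarith
  choose K0 hK0 hs using fun m => sylvester n m hR (pow_pos hδ n)
  choose K hK hf using fun m => factor_cls N n m (hK0 m) hM (R1 := (1 + R0) ^ n) (by positivity)
  have hK' : ∀ m, 0 ≤ K m := fun m => le_trans (by positivity) (hK m)
  refine ⟨∑ m ∈ Finset.range (n + 1), K m, Finset.sum_nonneg fun m _ => hK' m,
    fun S w A B h1 h2 h3 => ?_⟩
  have hc : ∀ s : Finset (Fin n), s.card ≤ n := fun s => by simpa using s.card_le_univ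
  have hn : ∀ y ∈ S, ∀ s : Finset (Fin n), ‖∏ i ∈ s, (X - C (w y i))‖ ≤ (1 + R0) ^ n :=
    fun y hy s => (norm_prod_le' s _ hR0 fun i _ => h1 y hy i).trans
      (pow_le_pow_right₀ (by linarith) (hc s))
  refine (hf B.card S _ _ (fun x hx y hy => ⟨fun a b ha hb => ?_, deg_sub_prod _ _ _ (hc A),
    deg_sub_prod _ _ _ le_rfl⟩) (fun y hy => hn y hy B) h3).mono le_rfl le_rfl
    (Finset.single_le_sum (fun m _ => hK' m) (Finset.mem_range.2 (Nat.lt_succ_of_le (hc B))))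
  refine hs B.card _ B (w y) _ a b rfl (fun i _ => (h1 y hy i).trans
    (le_add_of_nonneg_left (by positivity))) (fun k hk => ?_) ((hn x hx A).trans (by linarith)) ?_ ha hb
  · rw [eval_prod, norm_prod]
    refine (pow_le_pow_of_le_one hδ.le hδ1 (hc A)).trans ?_
    rw [← Finset.prod_const]
    exact Finset.prod_le_prod (fun _ _ => hδ.le) fun i hi => by simpa using h2 x hx y hy i hi k hk
  · rw [degree_prod]; simp only [degree_X_sub_C, Finset.sum_const, nsmul_eq_mul, mul_one]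
    exact_mod_cast hc A

end Pool.Agent.H286Z.Roots
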